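import Mathlib
import Pool.Agent.Helper273.Sup.Defs

namespace Pool.Agent.Helper273.Sup

open IntermediateField

/-- The list `z` is permuted like the roots `y` by the automorphisms over `M`. -/
def Equi (k : Type*) {K : Type*} [Field k] [Field K] [Algebra k K] {n : ℕ} (y : Fin n → K)
    (M : IntermediateField k K) (z : Fin n → K) : Prop :=
  ∀ σ : K ≃ₐ[k] K, (∀ b ∈ M, σ b = b) → ∀ π : Equiv.Perm (Fin n), (∀ i, σ (y i) = y (π i)) →
    ∀ i, σ (z i) = z (π i)

end Pool.Agent.Helper273.Sup
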