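import Pool.Agent.Helper273.Brg.Defs



namespace Pool.Agent.Helper273.Sup
open IntermediateField


theorem alg_three_root {L K : Type*} [Field L] [Field K] [Algebra L K] [CharZero K] (a b c : K)
    (l1 l2 l3 : L) (h1 : algebraMap L K l1 = a + b + c)
    (h2 : algebraMap L K l2 = a ^ 2 + b ^ 2 + c ^ 2)
    (h3 : algebraMap L K l3 = a ^ 3 + b ^ 3 + c ^ 3) : IsAlgebraic L a := by
  refine ⟨Polynomial.X ^ 3 - Polynomial.C l1 * Polynomial.X ^ 2 +
    Polynomial.C ((l1 ^ 2 - l2) / 2) * Polynomial.X -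
    Polynomial.C ((l1 ^ 3 - 3 * l1 * l2 + 2 * l3) / 6), ?_, ?_⟩
  · intro h
    have := congrArg (fun q => Polynomial.coeff q 3) h
    simp [Polynomial.coeff_X, Polynomial.coeff_C] at this
  · simp only [map_sub, map_add, map_mul, map_pow, Polynomial.aeval_X, Polynomial.aeval_C,
      map_div₀, h1, h2, h3, map_ofNat]
    field_simp
    ring

theorem alg_three_mem {k K : Type*} [Field k] [Field K] [Algebra k K] [CharZero K]
    (L : IntermediateField k K) (a b c : K) (h1 : a + b + c ∈ L) (h2 : a ^ 2 + b ^ 2 + c ^ 2 ∈ L)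
    (h3 : a ^ 3 + b ^ 3 + c ^ 3 ∈ L) : IsAlgebraic L a :=
  alg_three_root a b c (⟨_, h1⟩ : L) (⟨_, h2⟩ : L) (⟨_, h3⟩ : L) rfl rfl rfl

theorem alg_three_aux {k K : Type*} [Field k] [Field K] [Algebra k K] [CharZero k] {m : ℕ}
    (w : Fin (m + 4) → K) (h0 : w (Fin.natAdd m 3) = 1) (h1 : ∑ i, w i = 0)
    (h2 : ∑ i, w i ^ 2 = 0) (h3 : ∑ i, w i ^ 3 = 0) :
    ∃ u : Fin m → K, ∀ a ∈ adjoin k (Set.range w),
      IsAlgebraic (adjoin k (Set.range u)) a := by
  haveI : CharZero K := charZero_of_injective_algebraMap (algebraMap k K).injective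
  refine ⟨fun j => w (Fin.castAdd 4 j), ?_⟩
  set L := adjoin k (Set.range fun j => w (Fin.castAdd 4 j)) with hL
  have hu : ∀ j, w (Fin.castAdd 4 j) ∈ L := fun j => subset_adjoin k _ ⟨j, rfl⟩
  set a := w (Fin.natAdd m 0) with ha
  set b := w (Fin.natAdd m 1) with hb
  set c := w (Fin.natAdd m 2) with hc
  rw [Fin.sum_univ_add, Fin.sum_univ_four, h0] at h1 h2 h3
  rw [← ha, ← hb, ← hc] at h1 h2 h3
  have m1 : a + b + c ∈ L := by
    have e : a + b + c = -(∑ j, w (Fin.castAdd 4 j)) - 1 := by linear_combination h1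
    rw [e]
    exact sub_mem (neg_mem (sum_mem fun j _ => hu j)) (one_mem _)
  have m2 : a ^ 2 + b ^ 2 + c ^ 2 ∈ L := by
    have e : a ^ 2 + b ^ 2 + c ^ 2 = -(∑ j, w (Fin.castAdd 4 j) ^ 2) - 1 := by
      linear_combination h2
    rw [e]
    exact sub_mem (neg_mem (sum_mem fun j _ => pow_mem (hu j) 2)) (one_mem _)
  have m3 : a ^ 3 + b ^ 3 + c ^ 3 ∈ L := by
    have e : a ^ 3 + b ^ 3 + c ^ 3 = -(∑ j, w (Fin.castAdd 4 j) ^ 3) - 1 := by
      linear_combination h3
    rw [e]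
    exact sub_mem (neg_mem (sum_mem fun j _ => pow_mem (hu j) 3)) (one_mem _)
  have ra : IsAlgebraic L a := alg_three_mem L a b c m1 m2 m3
  have rb : IsAlgebraic L b := alg_three_mem L b a c (by rwa [add_comm b a])
    (by rwa [add_comm (b ^ 2) (a ^ 2)]) (by rwa [add_comm (b ^ 3) (a ^ 3)])
  have rc : IsAlgebraic L c := alg_three_mem L c b a
    (by have : c + b + a = a + b + c := by ring
        rwa [this])
    (by have : c ^ 2 + b ^ 2 + a ^ 2 = a ^ 2 + b ^ 2 + c ^ 2 := by ring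
        rwa [this])
    (by have : c ^ 3 + b ^ 3 + a ^ 3 = a ^ 3 + b ^ 3 + c ^ 3 := by ring
        rwa [this])
  have hle : adjoin k (Set.range w) ≤ (algebraicClosure L K).restrictScalars k := by
    rw [adjoin_le_iff]
    rintro _ ⟨i, rfl⟩
    change w i ∈ algebraicClosure L K
    rw [mem_algebraicClosure_iff]
    refine Fin.addCases (fun j => ?_) (fun j => ?_) i
    · exact isAlgebraic_algebraMap (⟨_, hu j⟩ : L)
    · fin_cases j
      · exact ra
      · exact rb
      · exact rc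
      · change IsAlgebraic L (w (Fin.natAdd m 3))
        rw [h0]
        exact isAlgebraic_one
  intro x hx
  have := hle hx
  exact mem_algebraicClosure_iff.mp this

theorem alg_three {k K : Type*} [Field k] [Field K] [Algebra k K] [CharZero k] {n : ℕ}
    (hn : 5 ≤ n) (w : Fin n → K) (i0 : Fin n) (h0 : w i0 = 1) (h1 : ∑ i, w i = 0)
    (h2 : ∑ i, w i ^ 2 = 0) (h3 : ∑ i, w i ^ 3 = 0) :
    ∃ u : Fin (n - 4) → K, ∀ a ∈ adjoin k (Set.range w),
      IsAlgebraic (adjoin k (Set.range u)) a := by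
  obtain ⟨m, rfl⟩ : ∃ m, n = m + 4 := ⟨n - 4, by omega⟩
  have e4 : m + 4 - 4 = m := by omega
  rw [e4]
  let σ : Equiv.Perm (Fin (m + 4)) := Equiv.swap i0 (Fin.natAdd m 3)
  obtain ⟨u, hu⟩ := alg_three_aux (k := k) (w ∘ σ)
    (by simp only [Function.comp, σ, Equiv.swap_apply_right, h0])
    (by rw [← h1]; exact Equiv.sum_comp σ w)
    (by rw [← h2]; exact Equiv.sum_comp σ (fun i => w i ^ 2))
    (by rw [← h3]; exact Equiv.sum_comp σ (fun i => w i ^ 3))
  refine ⟨u, ?_⟩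
  have hr : Set.range (w ∘ σ) = Set.range w := EquivLike.range_comp w σ
  rw [hr] at hu
  exact hu

end Pool.Agent.Helper273.Sup
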