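import Pool.Agent.Helper273.Brg.Defs



namespace Pool.Agent.Helper273.Sup
open IntermediateField


theorem trbasis2_aux {k K : Type*} [Field k] [Field K] [Algebra k K] {r : ℕ} (u : Fin r → K)
    (P L : IntermediateField k K) (hP : P ≤ L) (htr : Algebra.trdeg k L ≤ (r : Cardinal)) :
    ∃ t : Fin r → K, (∀ i, t i ∈ P) ∧ ∀ a ∈ P, IsAlgebraic (adjoin k (Set.range t)) a := by
  classical
  have htrP : Algebra.trdeg k P ≤ (r : Cardinal) :=
    (trdeg_le_of_injective (inclusion hP) (inclusion hP).injective).trans htr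
  obtain ⟨T, hT⟩ := exists_isTranscendenceBasis k P
  have hcard : Cardinal.mk T ≤ (r : Cardinal) := by
    rw [hT.cardinalMk_eq_trdeg]
    exact htrP
  have hTf : Finite T := by
    rw [← Cardinal.lt_aleph0_iff_finite]
    exact hcard.trans_lt (Cardinal.natCast_lt_aleph0)
  haveI := Fintype.ofFinite T
  have hcard' : Fintype.card T ≤ Fintype.card (Fin r) := by
    rw [Cardinal.mk_fintype] at hcard
    rw [Fintype.card_fin]
    exact_mod_cast hcard
  obtain ⟨g⟩ := Function.Embedding.nonempty_of_card_le hcard'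
  let t : Fin r → K := Function.extend g (fun y : T => ((y : P) : K)) 0
  have htg : ∀ y : T, t (g y) = ((y : P) : K) := fun y => g.injective.extend_apply _ _ y
  refine ⟨t, ?_, ?_⟩
  · intro i
    by_cases h : ∃ y, g y = i
    · obtain ⟨y, rfl⟩ := h
      rw [htg]
      exact (y : P).2
    · have : t i = 0 := Function.extend_apply' _ _ _ h
      rw [this]
      exact P.zero_mem
  · intro a ha
    have hTA := hT.isAlgebraic
    have hle : (Algebra.adjoin k (Set.range ((↑) : T → P))).map P.val ≤
        (adjoin k (Set.range t)).toSubalgebra := by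
      rw [AlgHom.map_adjoin]
      apply Algebra.adjoin_le
      rintro _ ⟨_, ⟨y, rfl⟩, rfl⟩
      exact subset_adjoin k _ ⟨g y, htg y⟩
    let φ : Algebra.adjoin k (Set.range ((↑) : T → P)) →+* adjoin k (Set.range t) :=
      { toFun := fun x => ⟨((x : P) : K), hle ⟨x.1, x.2, rfl⟩⟩
        map_one' := rfl
        map_mul' := fun _ _ => rfl
        map_zero' := rfl
        map_add' := fun _ _ => rfl }
    have hφ : Function.Injective φ := by
      intro x y hxy
      have : ((x : P) : K) = ((y : P) : K) := congrArg (fun z : adjoin k (Set.range t) => (z : K)) hxy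
      exact Subtype.ext (Subtype.ext this)
    obtain ⟨p, hp0, hpa⟩ := hTA.isAlgebraic (⟨a, ha⟩ : P)
    refine ⟨p.map φ, (Polynomial.map_ne_zero_iff hφ).2 hp0, ?_⟩
    rw [Polynomial.aeval_def, Polynomial.eval₂_map]
    rw [Polynomial.aeval_def] at hpa
    have h2 := congrArg P.val hpa
    rw [map_zero] at h2
    have h3 := Polynomial.hom_eval₂ p (algebraMap (Algebra.adjoin k (Set.range ((↑) : T → P))) P)
      (P.val : P →+* K) (⟨a, ha⟩ : P)
    have h4 : (algebraMap (adjoin k (Set.range t)) K).comp φ = (P.val : P →+* K).comp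
      (algebraMap (Algebra.adjoin k (Set.range ((↑) : T → P))) P) := rfl
    rw [h4]
    exact h3.symm.trans h2

open scoped IntermediateField.algebraAdjoinAdjoin in
theorem trbasis2_alg {k K : Type*} [Field k] [Field K] [Algebra k K] (s : Set K) (x : K)
    (hx : IsAlgebraic (adjoin k s) x) : IsAlgebraic (Algebra.adjoin k s) x :=
  (IsFractionRing.isAlgebraic_iff (Algebra.adjoin k s) (adjoin k s) K).mpr hx

theorem trbasis2 {k K : Type*} [Field k] [Field K] [Algebra k K] {r : ℕ} (u : Fin r → K)
    (P : IntermediateField k K) (hP : ∀ a ∈ P, IsAlgebraic (adjoin k (Set.range u)) a) :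
    ∃ t : Fin r → K, (∀ i, t i ∈ P) ∧ ∀ a ∈ P, IsAlgebraic (adjoin k (Set.range t)) a := by
  classical
  let L : IntermediateField k K :=
    (algebraicClosure (adjoin k (Set.range u)) K).restrictScalars k
  have hmem : ∀ x : K, x ∈ L ↔ IsAlgebraic (adjoin k (Set.range u)) x := by
    intro x
    exact mem_algebraicClosure_iff
  refine trbasis2_aux u P L (fun a ha => (hmem a).mpr (hP a ha)) ?_
  have huL : ∀ i, u i ∈ L := by
    intro i
    rw [hmem]
    exact isAlgebraic_algebraMap (⟨u i, subset_adjoin k _ ⟨i, rfl⟩⟩ : adjoin k (Set.range u))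
  let u' : Fin r → L := fun i => ⟨u i, huL i⟩
  have hmap : (Algebra.adjoin k (Set.range u')).map L.val = Algebra.adjoin k (Set.range u) := by
    rw [AlgHom.map_adjoin]
    congr 1
    rw [← Set.range_comp]
    rfl
  let ψ : Algebra.adjoin k (Set.range u') →+* Algebra.adjoin k (Set.range u) :=
    { toFun := fun x => ⟨((x : L) : K), hmap ▸ ⟨x.1, x.2, rfl⟩⟩
      map_one' := rfl
      map_mul' := fun _ _ => rfl
      map_zero' := rfl
      map_add' := fun _ _ => rfl }
  have hψ : Function.Surjective ψ := by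
    rintro ⟨y, hy⟩
    have hy' := hy
    rw [← hmap] at hy'
    obtain ⟨y', hy'', h⟩ := hy'
    exact ⟨⟨y', hy''⟩, Subtype.ext h⟩
  have hAlg : Algebra.IsAlgebraic (Algebra.adjoin k (Set.range u')) L := by
    refine ⟨fun x => ?_⟩
    have hx : IsAlgebraic (adjoin k (Set.range u)) (x : K) := (hmem x).mp x.2
    have hx' : IsAlgebraic (Algebra.adjoin k (Set.range u)) (x : K) :=
      trbasis2_alg _ _ hx
    exact IsAlgebraic.of_ringHom_of_comp_eq (f := ψ) (g := (L.val : L →+* K)) hx' hψ L.val.injective rfl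
  refine (Algebra.IsAlgebraic.trdeg_le_cardinalMk k (Set.range u')).trans ?_
  have h1 := Cardinal.mk_range_le_lift (f := u')
  simp only [Cardinal.lift_id', Cardinal.lift_uzero, Cardinal.mk_fin, Cardinal.lift_natCast] at h1
  exact h1

end Pool.Agent.Helper273.Sup
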