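import Pool.Agent.Helper273.Brg.Defs
import Pool.Agent.Helper273.Brg.P_trbasis2
import Pool.Agent.Helper273.Sup.P_alg_inf



namespace Pool.Agent.Helper273.Sup
open IntermediateField


theorem curve_trick2 {k K : Type*} [Field k] [Field K] [Algebra k K] [CharZero k]
    [IsAlgClosed K] (M U : IntermediateField k K) (hM : Algebra.IsAlgebraic M K) {r : ℕ}
    (u : Fin r → K) (hU : ∀ a ∈ U, IsAlgebraic (adjoin k (Set.range u)) a)
    (h : ∀ σ : K ≃ₐ[k] K, (∀ b ∈ M, σ b = b) → ∀ a ∈ U, σ a ∈ U) : U ≤ step r M := by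
  intro a ha
  have h1 := alg_inf M U hM h a ha
  obtain ⟨t, ht, hta⟩ := trbasis2 u (M ⊓ U) (fun b hb => hU b hb.2)
  have hle : adjoin k (Set.range t) ≤ (M ⊓ U) := by
    rw [adjoin_le_iff]
    rintro _ ⟨i, rfl⟩
    exact ht i
  let _ : Algebra (adjoin k (Set.range t)) (M ⊓ U : IntermediateField k K) :=
    (IntermediateField.inclusion hle).toRingHom.toAlgebra
  have : IsScalarTower (adjoin k (Set.range t)) (M ⊓ U : IntermediateField k K) K :=
    IsScalarTower.of_algebraMap_eq' rfl
  have : Algebra.IsAlgebraic (adjoin k (Set.range t))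
      (M ⊓ U : IntermediateField k K) := by
    refine ⟨fun b => ?_⟩
    have h2 := hta b b.2
    exact (isAlgebraic_algebraMap_iff (R := adjoin k (Set.range t))
      (A := K) (a := b) Subtype.val_injective).1 h2
  have h3 : IsAlgebraic (adjoin k (Set.range t)) a := h1.restrictScalars _
  exact subset_adjoin _ _ ⟨t, fun i => (ht i).1, h3⟩

end Pool.Agent.Helper273.Sup
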