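import Pool.Agent.Helper273.Brg.Defs



namespace Pool.Agent.Helper273.Sup
open IntermediateField


theorem exists_out_aux {n : ℕ} (s : Finset (Fin n)) (h : s.card < n) : ∃ l, l ∉ s := by
  by_contra hc
  push Not at hc
  have : s = Finset.univ := Finset.eq_univ_iff_forall.2 hc
  rw [this, Finset.card_univ, Fintype.card_fin] at h
  exact lt_irrefl _ h

theorem cyc_mem_aux {n : ℕ} {a b c : Fin n} (hab : a ≠ b) (hac : a ≠ c) :
    Equiv.swap a c * Equiv.swap a b ∈ alternatingGroup (Fin n) := by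
  rw [Equiv.Perm.mem_alternatingGroup, Equiv.Perm.sign_mul, Equiv.Perm.sign_swap hac,
    Equiv.Perm.sign_swap hab]
  decide

theorem not_const {K : Type*} [Field K] [CharZero K] {n : ℕ} (hn : 5 ≤ n) (z : Fin n → K)
    (hz : z ≠ 0) (h1 : ∑ i, z i = 0) (i0 : Fin n) (h0 : z i0 ≠ 0) :
    ∃ π ∈ alternatingGroup (Fin n), ∃ i, z (π i) * z i0 ≠ z i * z (π i0) := by
  by_contra hcon
  push Not at hcon
  have key : ∀ i j, i ≠ i0 → j ≠ i0 → z j = z i := by
    intro i j hi hj
    by_cases hij : i = j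
    · rw [hij]
    obtain ⟨l, hl⟩ := exists_out_aux ({i0, i, j} : Finset (Fin n))
      (lt_of_le_of_lt Finset.card_le_three (by omega))
    simp only [Finset.mem_insert, Finset.mem_singleton, not_or] at hl
    obtain ⟨hl0, hli, hlj⟩ := hl
    have h := hcon _ (cyc_mem_aux (a := i) (b := j) (c := l) hij (Ne.symm hli)) i
    have e1 : (Equiv.swap i l * Equiv.swap i j) i = j := by
      rw [Equiv.Perm.mul_apply, Equiv.swap_apply_left,
        Equiv.swap_apply_of_ne_of_ne (Ne.symm hij) (Ne.symm hlj)]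
    have e2 : (Equiv.swap i l * Equiv.swap i j) i0 = i0 := by
      rw [Equiv.Perm.mul_apply, Equiv.swap_apply_of_ne_of_ne (Ne.symm hi) (Ne.symm hj),
        Equiv.swap_apply_of_ne_of_ne (Ne.symm hi) (Ne.symm hl0)]
    rw [e1, e2] at h
    exact mul_right_cancel₀ h0 h
  obtain ⟨j, hj⟩ := exists_out_aux ({i0} : Finset (Fin n))
    (by rw [Finset.card_singleton]; omega)
  rw [Finset.mem_singleton] at hj
  obtain ⟨l, hl⟩ := exists_out_aux ({i0, j} : Finset (Fin n))
    (lt_of_le_of_lt Finset.card_le_two (by omega))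
  simp only [Finset.mem_insert, Finset.mem_singleton, not_or] at hl
  obtain ⟨hl0, hlj⟩ := hl
  obtain ⟨m, hm⟩ := exists_out_aux ({i0, j, l} : Finset (Fin n))
    (lt_of_le_of_lt Finset.card_le_three (by omega))
  simp only [Finset.mem_insert, Finset.mem_singleton, not_or] at hm
  obtain ⟨hm0, hmj, hml⟩ := hm
  have h := hcon _ (cyc_mem_aux (a := i0) (b := j) (c := l) (Ne.symm hj) (Ne.symm hl0)) m
  have e1 : (Equiv.swap i0 l * Equiv.swap i0 j) m = m := by
    rw [Equiv.Perm.mul_apply, Equiv.swap_apply_of_ne_of_ne hm0 hmj,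
      Equiv.swap_apply_of_ne_of_ne hm0 hml]
  have e2 : (Equiv.swap i0 l * Equiv.swap i0 j) i0 = j := by
    rw [Equiv.Perm.mul_apply, Equiv.swap_apply_left,
      Equiv.swap_apply_of_ne_of_ne hj (Ne.symm hlj)]
  rw [e1, e2, key j m hj hm0] at h
  by_cases hb : z j = 0
  · have hs : ∑ i, z i = z i0 := by
      rw [Finset.sum_eq_single i0]
      · intro b _ hb'
        rw [key j b hj hb', hb]
      · intro h'; exact absurd (Finset.mem_univ _) h'
    rw [hs] at h1
    exact h0 h1
  · have h2 : z i0 = z j := mul_left_cancel₀ hb h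
    have hs : ∑ i, z i = (n : K) * z j := by
      rw [Finset.sum_congr rfl (g := fun _ => z j)]
      · rw [Finset.sum_const, Finset.card_univ, Fintype.card_fin, nsmul_eq_mul]
      · intro b _
        by_cases hb0 : b = i0
        · rw [hb0, h2]
        · exact key j b hj hb0
    rw [hs] at h1
    rcases mul_eq_zero.1 h1 with h3 | h3
    · have : n = 0 := by exact_mod_cast h3
      omega
    · exact hb h3

end Pool.Agent.Helper273.Sup
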