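import Pool.Agent.Helper273.Brg.Defs
import Pool.Agent.Helper273.Brg.P_curve_trick2
import Pool.Agent.Helper273.Brg.P_alg_three
import Pool.Agent.Helper273.Brg.P_normal_gen
import Pool.Agent.Helper273.Brg.P_not_const
import Pool.Agent.Helper273.Six.P_realise2
import Pool.Agent.Helper273.Sup.P_galois_mem
import Pool.Agent.Helper273.Sup.P_alg_of_le
import Pool.Agent.Helper273.Sup.P_roots_indep
import Pool.Agent.Helper273.Sup.P_exists_hom
import Pool.Agent.Helper273.Sup.P_le_step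
import Pool.Agent.Helper273.Sup.P_step_mono
import Pool.Agent.Helper273.Sup.P_even_perm



namespace Pool.Agent.Helper273.Sup
open IntermediateField


theorem stage_three {k K : Type*} [Field k] [Field K] [Algebra k K] [CharZero k]
    [IsAlgClosed K] {n : ℕ} (hn : 5 ≤ n) (x y : Fin n → K) (hx : Gen k x) (hy : IsRoots x y)
    (hz : ∃ z : Fin n → K, z ≠ 0 ∧ Equi k y (step (n - 4) (adjoin k (Set.range x))) z ∧
      ∑ i, z i = 0 ∧ ∑ i, z i ^ 2 = 0 ∧ ∑ i, z i ^ 3 = 0) (i : Fin n) :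
    y i ∈ step (n - 4) (step (n - 4) (adjoin k (Set.range x))) := by
  classical
  haveI : CharZero K := charZero_of_injective_algebraMap (algebraMap k K).injective
  have hr : 1 ≤ n - 4 := by omega
  set B : IntermediateField k K := adjoin k (Set.range x) with hB
  set F : IntermediateField k K := step (n - 4) B with hF
  have hBF : B ≤ F := le_step (n - 4) hr B
  have hFF : F ≤ step (n - 4) F := le_step (n - 4) hr F
  have hFalg : Algebra.IsAlgebraic F K := alg_of_le B F hBF hx.alg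
  rcases realise2 hn (n - 4) hr x y hx hy with hin | hall
  · exact hFF (hin i)
  obtain ⟨z, hz0, hEq, hs1, hs2, hs3⟩ := hz
  obtain ⟨i0, hi0⟩ : ∃ i0, z i0 ≠ 0 := by
    by_contra hcon
    push Not at hcon
    exact hz0 (funext hcon)
  obtain ⟨ρ, hρ⟩ := exists_hom x y hx hy
  -- permutation attached to an automorphism over F
  have hperm : ∀ σ : K ≃ₐ[k] K, (∀ b ∈ F, σ b = b) →
      ∃ π : Equiv.Perm (Fin n), ∀ j, σ (y j) = y (π j) := by
    intro σ hσ
    have hmem : σ ∈ (adjoin k (Set.range x)).fixingSubgroup := by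
      rw [IntermediateField.mem_fixingSubgroup_iff]
      intro b hb
      exact hσ b (hBF hb)
    exact ⟨ρ ⟨σ, hmem⟩, fun j => hρ ⟨σ, hmem⟩ j⟩
  set w : Fin n → K := fun j => z j / z i0 with hw
  have hw0 : w i0 = 1 := by simp [hw, hi0]
  have hw1 : ∑ j, w j = 0 := by
    simp only [hw]
    rw [← Finset.sum_div, hs1, zero_div]
  have hw2 : ∑ j, w j ^ 2 = 0 := by
    simp only [hw, div_pow]
    rw [← Finset.sum_div, hs2, zero_div]
  have hw3 : ∑ j, w j ^ 3 = 0 := by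
    simp only [hw, div_pow]
    rw [← Finset.sum_div, hs3, zero_div]
  obtain ⟨u, hu⟩ := alg_three (k := k) hn w i0 hw0 hw1 hw2 hw3
  set U : IntermediateField k K := adjoin k (Set.range w) with hU
  have hwU : ∀ j, w j ∈ U := fun j => subset_adjoin k _ ⟨j, rfl⟩
  have hσw : ∀ σ : K ≃ₐ[k] K, (∀ b ∈ F, σ b = b) → ∀ π : Equiv.Perm (Fin n),
      (∀ j, σ (y j) = y (π j)) → ∀ j, σ (w j) = z (π j) / z (π i0) := by
    intro σ hσ π hπ j
    simp only [hw]
    rw [map_div₀, hEq σ hσ π hπ j, hEq σ hσ π hπ i0]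
  have hstabw : ∀ σ : K ≃ₐ[k] K, (∀ b ∈ F, σ b = b) → ∀ j, σ (w j) ∈ U := by
    intro σ hσ j
    obtain ⟨π, hπ⟩ := hperm σ hσ
    rw [hσw σ hσ π hπ j]
    have : z (π j) / z (π i0) = w (π j) / w (π i0) := by
      simp only [hw]
      rw [div_div_div_cancel_right₀ hi0]
    rw [this]
    exact div_mem (hwU _) (hwU _)
  have hstab : ∀ σ : K ≃ₐ[k] K, (∀ b ∈ F, σ b = b) → ∀ a ∈ U, σ a ∈ U := by
    intro σ hσ a ha
    have hle : U ≤ U.comap (σ : K →ₐ[k] K) := by
      rw [hU, adjoin_le_iff]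
      rintro _ ⟨j, rfl⟩
      exact hstabw σ hσ j
    exact hle ha
  have hUle : U ≤ step (n - 4) F := curve_trick2 F U hFalg u hu hstab
  have hev : ∀ σ : K ≃ₐ[k] K, (∀ b ∈ F, σ b = b) →
      ∃ π ∈ alternatingGroup (Fin n), ∀ j, σ (y j) = y (π j) := by
    intro σ hσ
    obtain ⟨π, hπ⟩ := hperm σ hσ
    refine ⟨π, even_perm x y hx hy σ (fun b hb => hσ b (step_mono 1 (n - 4) hr _ hb)) π hπ, hπ⟩
  have hne : ∃ π ∈ alternatingGroup (Fin n), ∀ σ : K ≃ₐ[k] K, (∀ b ∈ F, σ b = b) →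
      (∀ j, σ (y j) = y (π j)) → ∃ j, σ (w j) ≠ w j := by
    obtain ⟨π, hπA, j, hj⟩ := not_const hn z hz0 hs1 i0 hi0
    refine ⟨π, hπA, fun σ hσ hπ => ⟨j, fun heq => hj ?_⟩⟩
    have hπ0 : z (π i0) ≠ 0 := by
      rw [← hEq σ hσ π hπ i0]
      exact fun h => hi0 ((map_eq_zero σ).1 h)
    rw [hσw σ hσ π hπ j] at heq
    have heq' : z (π j) / z (π i0) = z j / z i0 := heq
    rw [div_eq_div_iff hπ0 hi0] at heq'
    exact heq'
  have hfix : ∀ σ : K ≃ₐ[k] K, (∀ b ∈ F, σ b = b) → (∀ s ∈ Set.range w, σ s = s) →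
      σ (y i) = y i := by
    intro σ hσ hs
    exact normal_gen hn F y w hev hall hstabw hne σ hσ (fun j => hs _ ⟨j, rfl⟩) i
  have hmem := galois_mem F hFalg (Set.range w) (y i) hfix
  have hle : adjoin k ((F : Set K) ∪ Set.range w) ≤ step (n - 4) F := by
    rw [adjoin_le_iff]
    rintro b (hb | ⟨j, rfl⟩)
    · exact hFF hb
    · exact hUle (hwU j)
  exact hle hmem

end Pool.Agent.Helper273.Sup
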