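import Pool.Agent.Helper273.Brg.Defs



namespace Pool.Agent.Helper273.Sup
open IntermediateField


theorem equi_lin {k K : Type*} [Field k] [Field K] [Algebra k K] {n : ℕ} (y : Fin n → K)
    (M M' : IntermediateField k K) (hM : M ≤ M') (z z' : Fin n → K) (hz : Equi k y M z)
    (hz' : Equi k y M z') (a b : K) (ha : a ∈ M') (hb : b ∈ M') :
    Equi k y M' (a • z + b • z') := by
  intro σ hσ π hπ i
  have h1 := hz σ (fun b hb => hσ b (hM hb)) π hπ i
  have h2 := hz' σ (fun b hb => hσ b (hM hb)) π hπ i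
  simp only [Pi.add_apply, Pi.smul_apply, smul_eq_mul, map_add, map_mul, hσ a ha, hσ b hb, h1, h2]

end Pool.Agent.Helper273.Sup
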