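import Pool.Agent.Helper273.Brg.Defs
import Pool.Agent.Helper273.Sup.P_fixed_mem
import Pool.Agent.Helper273.Sup.P_alg_of_le
import Pool.Agent.Helper273.Sup.P_exists_hom



namespace Pool.Agent.Helper273.Sup
open IntermediateField


theorem equi_sum {k K : Type*} [Field k] [Field K] [Algebra k K] [CharZero k] [IsAlgClosed K]
    {n : ℕ} (x y : Fin n → K) (hx : Gen k x) (hy : IsRoots x y) (M : IntermediateField k K)
    (hM : adjoin k (Set.range x) ≤ M) (z z' z'' : Fin n → K) (hz : Equi k y M z)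
    (hz' : Equi k y M z') (hz'' : Equi k y M z'') :
    (∑ i, z i * z' i ∈ M) ∧ ∑ i, z i * z' i * z'' i ∈ M := by
  have hMalg : Algebra.IsAlgebraic M K := alg_of_le _ M hM hx.alg
  obtain ⟨ρ, hρ⟩ := exists_hom x y hx hy
  have key : ∀ σ : K ≃ₐ[k] K, (∀ b ∈ M, σ b = b) →
      ∃ π : Equiv.Perm (Fin n), ∀ i, σ (y i) = y (π i) := by
    intro σ hσ
    have hmem : σ ∈ (adjoin k (Set.range x)).fixingSubgroup := by
      rw [IntermediateField.mem_fixingSubgroup_iff]
      intro b hb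
      exact hσ b (hM hb)
    exact ⟨ρ ⟨σ, hmem⟩, fun i => hρ ⟨σ, hmem⟩ i⟩
  constructor
  · refine fixed_mem M hMalg _ fun σ hσ => ?_
    obtain ⟨π, hπ⟩ := key σ hσ
    have h1 := hz σ hσ π hπ
    have h2 := hz' σ hσ π hπ
    rw [map_sum]
    simp only [map_mul, h1, h2]
    exact Equiv.sum_comp π (fun i => z i * z' i)
  · refine fixed_mem M hMalg _ fun σ hσ => ?_
    obtain ⟨π, hπ⟩ := key σ hσ
    have h1 := hz σ hσ π hπ
    have h2 := hz' σ hσ π hπ
    have h3 := hz'' σ hσ π hπ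
    rw [map_sum]
    simp only [map_mul, h1, h2, h3]
    exact Equiv.sum_comp π (fun i => z i * z' i * z'' i)

end Pool.Agent.Helper273.Sup
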