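import Pool.Agent.Helper273.Brg.Defs
import Pool.Agent.Helper273.Brg.P_equi_sum
import Pool.Agent.Helper273.Brg.P_equi_lin
import Pool.Agent.Helper273.Sup.P_le_step
import Pool.Agent.Helper273.Sup.P_cubic_mem_step



namespace Pool.Agent.Helper273.Sup
open IntermediateField


theorem cubic_point {k K : Type*} [Field k] [Field K] [Algebra k K] [CharZero k] [IsAlgClosed K]
    {n : ℕ} (x y : Fin n → K) (hx : Gen k x) (hy : IsRoots x y)
    (E : IntermediateField k K) (hE : adjoin k (Set.range x) ≤ E) (P P' : Fin n → K)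
    (hP : Equi k y E P) (hP' : Equi k y E P') (h1 : ∑ i, P i = 0) (h1' : ∑ i, P' i = 0)
    (h2 : ∑ i, P i ^ 2 = 0) (h2' : ∑ i, P' i ^ 2 = 0) (h3 : ∑ i, P i * P' i = 0)
    (hlin : LinearIndependent K ![P, P']) :
    ∃ z : Fin n → K, z ≠ 0 ∧ Equi k y (step 1 E) z ∧ ∑ i, z i = 0 ∧ ∑ i, z i ^ 2 = 0 ∧
      ∑ i, z i ^ 3 = 0 := by
  have hstep : E ≤ step 1 E := le_step 1 le_rfl E
  by_cases hA : ∑ i, P i * P i * P i = 0
  · refine ⟨P, ?_, ?_, h1, h2, ?_⟩
    · have := hlin.ne_zero 0
      simpa using this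
    · have := equi_lin y E (step 1 E) hstep P P' hP hP' 1 0 (one_mem _) (zero_mem _)
      simpa using this
    · rw [← hA]
      exact Finset.sum_congr rfl (fun i _ => by ring)
  · have mA := (equi_sum x y hx hy E hE P P P hP hP hP).2
    have mB := (equi_sum x y hx hy E hE P P P' hP hP hP').2
    have mC := (equi_sum x y hx hy E hE P P' P' hP hP' hP').2
    have mD := (equi_sum x y hx hy E hE P' P' P' hP' hP' hP').2
    obtain ⟨A, hAd⟩ : ∃ A, A = ∑ i, P i * P i * P i := ⟨_, rfl⟩
    obtain ⟨B, hBd⟩ : ∃ B, B = ∑ i, P i * P i * P' i := ⟨_, rfl⟩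
    obtain ⟨C, hCd⟩ : ∃ C, C = ∑ i, P i * P' i * P' i := ⟨_, rfl⟩
    obtain ⟨D, hDd⟩ : ∃ D, D = ∑ i, P' i * P' i * P' i := ⟨_, rfl⟩
    rw [← hAd] at hA mA
    rw [← hBd] at mB
    rw [← hCd] at mC
    rw [← hDd] at mD
    obtain ⟨a, ha⟩ := IsAlgClosed.exists_root
      (Polynomial.C A * Polynomial.X ^ 3 + Polynomial.C (3 * B) * Polynomial.X ^ 2 +
        Polynomial.C (3 * C) * Polynomial.X + Polynomial.C D) (by
          rw [Polynomial.degree_cubic hA]
          decide)
    have ha' : A * a ^ 3 + 3 * B * a ^ 2 + 3 * C * a + D = 0 := by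
      have := ha
      rw [Polynomial.IsRoot.def] at this
      simpa using this
    have m3 : (3 : K) ∈ E := by
      have := E.natCast_mem 3
      exact_mod_cast this
    have hae : a ∈ step 1 E := by
      apply cubic_mem_step E (3 * B / A) (3 * C / A) (D / A) a
        (div_mem (mul_mem m3 mB) mA) (div_mem (mul_mem m3 mC) mA) (div_mem mD mA)
      field_simp
      linear_combination ha'
    refine ⟨a • P + (1 : K) • P', ?_, ?_, ?_, ?_, ?_⟩
    · intro h0
      have := (LinearIndependent.pair_iff.mp hlin a 1 h0).2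
      exact one_ne_zero this
    · exact equi_lin y E (step 1 E) hstep P P' hP hP' a 1 hae (one_mem _)
    · have : ∀ i, (a • P + (1 : K) • P') i = a * P i + P' i := by
        intro i; simp
      simp only [this]
      rw [Finset.sum_add_distrib, ← Finset.mul_sum, h1, h1']
      ring
    · have : ∀ i, (a • P + (1 : K) • P') i ^ 2 = a ^ 2 * P i ^ 2 + 2 * a * (P i * P' i) + P' i ^ 2 := by
        intro i; simp; ring
      simp only [this]
      rw [Finset.sum_add_distrib, Finset.sum_add_distrib, ← Finset.mul_sum, ← Finset.mul_sum, h2, h2', h3]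
      ring
    · have : ∀ i, (a • P + (1 : K) • P') i ^ 3 = a ^ 3 * (P i * P i * P i) + 3 * a ^ 2 * (P i * P i * P' i)
          + 3 * a * (P i * P' i * P' i) + P' i * P' i * P' i := by
        intro i; simp; ring
      simp only [this]
      rw [Finset.sum_add_distrib, Finset.sum_add_distrib, Finset.sum_add_distrib, ← Finset.mul_sum,
        ← Finset.mul_sum, ← Finset.mul_sum, ← hAd, ← hBd, ← hCd, ← hDd, ← ha']
      ring

end Pool.Agent.Helper273.Sup
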