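import Pool.Agent.Helper273.Brg.Defs
import Pool.Agent.Helper273.Sup.P_roots_indep



namespace Pool.Agent.Helper273.Sup
open IntermediateField


theorem basis_trace {k K : Type*} [Field k] [Field K] [Algebra k K] [CharZero k] [IsAlgClosed K]
    {n : ℕ} (hn : 2 ≤ n) (x y : Fin n → K) (hx : Gen k x) (hy : IsRoots x y) :
    ∃ b : Fin (n - 1) → Fin n → K, (∀ j, Equi k y (adjoin k (Set.range x)) (b j)) ∧
      (∀ j, ∑ i, b j i = 0) ∧ LinearIndependent K b := by
  classical
  haveI : CharZero K := charZero_of_injective_algebraMap (algebraMap k K).injective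
  have hn0 : (n : K) ≠ 0 := by
    have : n ≠ 0 := by omega
    exact_mod_cast this
  have hinj : Function.Injective y := (roots_indep x y hx hy).injective
  refine ⟨fun j i => y i ^ ((j : ℕ) + 1) - (∑ l, y l ^ ((j : ℕ) + 1)) / n, ?_, ?_, ?_⟩
  · intro j σ _ π hπ i
    simp only [map_sub, map_pow, map_div₀, map_sum, map_natCast, hπ]
    congr 2
    exact Equiv.sum_comp π (fun l => y l ^ ((j : ℕ) + 1))
  · intro j
    rw [Finset.sum_sub_distrib]
    simp only [Finset.sum_const, Finset.card_univ, Fintype.card_fin, nsmul_eq_mul]
    field_simp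
    ring
  · rw [Fintype.linearIndependent_iff]
    intro g hg
    set c0 : K := ∑ j : Fin (n - 1), g j * ((∑ l, y l ^ ((j : ℕ) + 1)) / n) with hc0
    set Q : Polynomial K := ∑ j : Fin (n - 1), Polynomial.C (g j) * Polynomial.X ^ ((j : ℕ) + 1) -
      Polynomial.C c0 with hQ
    have hdeg : Q.natDegree < Fintype.card (Fin n) := by
      rw [Fintype.card_fin]
      have h1 : Q.natDegree ≤ n - 1 := by
        rw [hQ]
        refine (Polynomial.natDegree_sub_le _ _).trans (max_le ?_ ?_)
        · apply Polynomial.natDegree_sum_le_of_forall_le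
          intro j _
          refine (Polynomial.natDegree_C_mul_X_pow_le _ _).trans ?_
          have := j.2
          omega
        · rw [Polynomial.natDegree_C]
          exact Nat.zero_le _
      omega
    have heval : ∀ i, Q.eval (y i) = 0 := by
      intro i
      have h := congrFun hg i
      simp only [Finset.sum_apply, Pi.smul_apply, smul_eq_mul, Pi.zero_apply] at h
      rw [hQ, hc0]
      simp only [Polynomial.eval_sub, Polynomial.eval_finsetSum, Polynomial.eval_mul,
        Polynomial.eval_C, Polynomial.eval_pow, Polynomial.eval_X]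
      rw [← h, ← Finset.sum_sub_distrib]
      refine Finset.sum_congr rfl ?_
      intro j _
      ring
    have hQ0 : Q = 0 := Polynomial.eq_zero_of_natDegree_lt_card_of_eval_eq_zero Q hinj heval hdeg
    intro j
    have hcoef := congrArg (fun P : Polynomial K => P.coeff ((j : ℕ) + 1)) hQ0
    simp only [hQ, Polynomial.coeff_sub, Polynomial.finsetSum_coeff, Polynomial.coeff_C_mul,
      Polynomial.coeff_X_pow, Polynomial.coeff_C_succ, Polynomial.coeff_zero, sub_zero] at hcoef
    rw [Finset.sum_eq_single j] at hcoef
    · simpa using hcoef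
    · intro l _ hl
      rw [if_neg, mul_zero]
      intro h
      apply hl
      ext
      omega
    · intro h
      exact absurd (Finset.mem_univ j) h

end Pool.Agent.Helper273.Sup
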