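import Pool.Agent.Helper273.Brg.Defs



namespace Pool.Agent.Helper273.Sup
open IntermediateField


theorem iso_comb {k K : Type*} [Field k] [Field K] [Algebra k K] [CharZero k] [IsAlgClosed K]
    (M : IntermediateField k K) (A B C : K) (hA : A ∈ M) (hB : B ∈ M) (hC : C ∈ M) :
    ∃ s a b : K, s ^ 2 ∈ M ∧ a ∈ adjoin k ((M : Set K) ∪ {s}) ∧
      b ∈ adjoin k ((M : Set K) ∪ {s}) ∧ (a ≠ 0 ∨ b ≠ 0) ∧
      a ^ 2 * A + 2 * a * b * B + b ^ 2 * C = 0 := by
  by_cases h0 : A = 0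
  · refine ⟨0, 1, 0, ?_, one_mem _, zero_mem _, Or.inl one_ne_zero, ?_⟩
    · rw [zero_pow two_ne_zero]
      exact zero_mem _
    · rw [h0]; ring
  · obtain ⟨s, hs⟩ := IsAlgClosed.exists_pow_nat_eq (B ^ 2 - A * C) (n := 2) (by norm_num)
    have hsub : ∀ x ∈ M, x ∈ adjoin k ((M : Set K) ∪ {s}) := fun x hx =>
      IntermediateField.subset_adjoin k _ (Or.inl hx)
    have hss : s ∈ adjoin k ((M : Set K) ∪ {s}) :=
      IntermediateField.subset_adjoin k _ (Or.inr rfl)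
    refine ⟨s, (-B + s) / A, 1, ?_, ?_, one_mem _, Or.inr one_ne_zero, ?_⟩
    · rw [hs]
      exact sub_mem (pow_mem hB 2) (mul_mem hA hC)
    · exact div_mem (add_mem (neg_mem (hsub B hB)) hss) (hsub A hA)
    · field_simp
      linear_combination hs

end Pool.Agent.Helper273.Sup
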