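import Pool.Agent.Helper273.Brg.Defs
import Pool.Agent.Helper273.Brg.P_iso_comb
import Pool.Agent.Helper273.Brg.P_equi_sum
import Pool.Agent.Helper273.Brg.P_equi_lin
import Pool.Agent.Helper273.Brg.P_basis_trace



namespace Pool.Agent.Helper273.Sup
open IntermediateField


theorem first_point {k K : Type*} [Field k] [Field K] [Algebra k K] [CharZero k] [IsAlgClosed K]
    {n : ℕ} (hn : 3 ≤ n) (x y : Fin n → K) (hx : Gen k x) (hy : IsRoots x y) :
    ∃ (s : K) (P : Fin n → K), s ^ 2 ∈ adjoin k (Set.range x) ∧ P ≠ 0 ∧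
      Equi k y (adjoin k ((adjoin k (Set.range x) : Set K) ∪ {s})) P ∧
      ∑ i, P i = 0 ∧ ∑ i, P i ^ 2 = 0 := by
  obtain ⟨b, hbE, hb0, hbL⟩ := basis_trace (by omega) x y hx hy
  have h0 : 0 < n - 1 := by omega
  have h1 : 1 < n - 1 := by omega
  set i0 : Fin (n - 1) := ⟨0, h0⟩ with hi0
  set i1 : Fin (n - 1) := ⟨1, h1⟩ with hi1
  have hA : ∑ i, b i0 i * b i0 i ∈ adjoin k (Set.range x) :=
    (equi_sum x y hx hy _ le_rfl (b i0) (b i0) (b i0) (hbE i0) (hbE i0) (hbE i0)).1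
  have hB : ∑ i, b i0 i * b i1 i ∈ adjoin k (Set.range x) :=
    (equi_sum x y hx hy _ le_rfl (b i0) (b i1) (b i0) (hbE i0) (hbE i1) (hbE i0)).1
  have hC : ∑ i, b i1 i * b i1 i ∈ adjoin k (Set.range x) :=
    (equi_sum x y hx hy _ le_rfl (b i1) (b i1) (b i0) (hbE i1) (hbE i1) (hbE i0)).1
  obtain ⟨s, a, c, hs, ha, hc, hne, heq⟩ := iso_comb (adjoin k (Set.range x)) _ _ _ hA hB hC
  have hle : adjoin k (Set.range x) ≤ adjoin k ((adjoin k (Set.range x) : Set K) ∪ {s}) := by
    intro z hz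
    exact subset_adjoin k _ (Or.inl hz)
  refine ⟨s, a • b i0 + c • b i1, hs, ?_,
    equi_lin y _ _ hle (b i0) (b i1) (hbE i0) (hbE i1) a c ha hc, ?_, ?_⟩
  · intro hP
    have hinj : Function.Injective (![i0, i1] : Fin 2 → Fin (n - 1)) := by
      intro p q hpq
      fin_cases p <;> fin_cases q <;> simp [hi0, hi1] at hpq ⊢
    have hL := hbL.comp _ hinj
    have hfun : b ∘ (![i0, i1] : Fin 2 → Fin (n - 1)) = ![b i0, b i1] := by
      funext p
      fin_cases p <;> rfl
    rw [hfun] at hL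
    have := (LinearIndependent.pair_iff.1 hL) a c hP
    rcases hne with h | h
    · exact h this.1
    · exact h this.2
  · simp only [Pi.add_apply, Pi.smul_apply, smul_eq_mul, Finset.sum_add_distrib,
      ← Finset.mul_sum, hb0, mul_zero, add_zero]
  · have e : ∀ i, (a • b i0 + c • b i1) i ^ 2 =
        a ^ 2 * (b i0 i * b i0 i) + 2 * a * c * (b i0 i * b i1 i) + c ^ 2 * (b i1 i * b i1 i) := by
      intro i
      simp only [Pi.add_apply, Pi.smul_apply, smul_eq_mul]
      ring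
    rw [Finset.sum_congr rfl fun i _ => e i, Finset.sum_add_distrib, Finset.sum_add_distrib,
      ← Finset.mul_sum, ← Finset.mul_sum, ← Finset.mul_sum]
    exact heq

end Pool.Agent.Helper273.Sup
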