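import Pool.Agent.Helper273.Brg.Defs
import Pool.Agent.Helper273.Brg.P_equi_sum
import Pool.Agent.Helper273.Brg.P_equi_lin
import Pool.Agent.Helper273.Brg.P_basis_trace



namespace Pool.Agent.Helper273.Sup
open IntermediateField


theorem second_pts {k K : Type*} [Field k] [Field K] [Algebra k K] [CharZero k] [IsAlgClosed K]
    {n : ℕ} (hn : 5 ≤ n) (x y : Fin n → K) (hx : Gen k x) (hy : IsRoots x y)
    (M : IntermediateField k K) (hM : adjoin k (Set.range x) ≤ M) (P : Fin n → K) (hP0 : P ≠ 0)
    (hP : Equi k y M P) (h1 : ∑ i, P i = 0) (h2 : ∑ i, P i ^ 2 = 0) :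
    ∃ w w' : Fin n → K, Equi k y M w ∧ Equi k y M w' ∧ ∑ i, w i = 0 ∧ ∑ i, w' i = 0 ∧
      ∑ i, P i * w i = 0 ∧ ∑ i, P i * w' i = 0 ∧ LinearIndependent K ![P, w, w'] := by
  classical
  have : CharZero K := charZero_of_injective_algebraMap (algebraMap k K).injective
  obtain ⟨b, hbE, hbs, hbl⟩ := basis_trace (by omega) x y hx hy
  -- span
  let ℓ : (Fin n → K) →ₗ[K] K := ∑ i, LinearMap.proj i
  have hℓ : ∀ v, ℓ v = ∑ i, v i := by intro v; simp [ℓ]
  have hker : Submodule.span K (Set.range b) = LinearMap.ker ℓ := by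
    apply Submodule.eq_of_le_of_finrank_eq
    · rw [Submodule.span_le]
      rintro _ ⟨j, rfl⟩
      simp [hℓ, hbs]
    · rw [finrank_span_eq_card hbl, Fintype.card_fin]
      have h3 := LinearMap.finrank_range_add_finrank_ker ℓ
      have h4 : LinearMap.range ℓ = ⊤ := by
        rw [LinearMap.range_eq_top]
        intro c
        refine ⟨Pi.single ⟨0, by omega⟩ c, ?_⟩
        rw [hℓ]; simp
      rw [h4, finrank_top, Module.finrank_self, Module.finrank_fin_fun] at h3
      omega
  have hspan : ∀ v : Fin n → K, ∑ i, v i = 0 → ∃ c : Fin (n-1) → K, ∑ j, c j • b j = v := by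
    intro v hv
    rw [← Submodule.mem_span_range_iff_exists_fun, hker, LinearMap.mem_ker, hℓ, hv]
  set β : Fin (n-1) → K := fun j => ∑ i, P i * b j i with hβ
  have hdot : ∀ c : Fin (n-1) → K, ∑ i, P i * (∑ j, c j • b j) i = ∑ j, c j * β j := by
    intro c
    simp only [Finset.sum_apply, Pi.smul_apply, smul_eq_mul, hβ, Finset.mul_sum]
    rw [Finset.sum_comm]
    refine Finset.sum_congr rfl fun j _ => Finset.sum_congr rfl fun i _ => by ring
  obtain ⟨j0, hj0⟩ : ∃ j0, β j0 ≠ 0 := by
    by_contra hcon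
    push Not at hcon
    apply hP0
    have hconst : ∀ i i', P i = P i' := by
      intro i i'
      obtain ⟨c, hc⟩ := hspan (Pi.single i 1 - Pi.single i' 1) (by simp)
      have := hdot c
      rw [hc] at this
      simp only [hcon, mul_zero, Finset.sum_const_zero, Pi.sub_apply, mul_sub,
        Finset.sum_sub_distrib, Pi.single_apply, mul_ite, mul_one,
        Finset.sum_ite_eq', Finset.mem_univ, if_true] at this
      exact sub_eq_zero.1 this
    funext i
    have h3 : ∑ i', P i' = (n : K) * P i := by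
      rw [Finset.sum_congr rfl (fun i' _ => hconst i' i)]
      simp
    rw [h1] at h3
    have h4 : (n : K) ≠ 0 := by
      exact_mod_cast (by omega : n ≠ 0)
    rcases mul_eq_zero.1 h3.symm with h | h
    · exact absurd h h4
    · exact h
  obtain ⟨a, ha⟩ := hspan P h1
  have haβ : ∑ j, a j * β j = 0 := by
    rw [← hdot a, ha, ← h2]
    exact Finset.sum_congr rfl fun i _ => by ring
  obtain ⟨j1, hj1, haj1⟩ : ∃ j1, j1 ≠ j0 ∧ a j1 ≠ 0 := by
    by_contra hcon
    push Not at hcon
    apply hP0
    have h5 : a j0 * β j0 = 0 := by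
      rw [← haβ]
      symm
      apply Finset.sum_eq_single j0
      · intro j _ hj
        rw [hcon j hj, zero_mul]
      · simp
    have h6 : a j0 = 0 := by
      rcases mul_eq_zero.1 h5 with h | h
      · exact h
      · exact absurd h hj0
    rw [← ha]
    apply Finset.sum_eq_zero
    intro j _
    by_cases hj : j = j0
    · rw [hj, h6, zero_smul]
    · rw [hcon j hj, zero_smul]
  obtain ⟨j2, j3, h20, h21, h30, h31, h23⟩ : ∃ j2 j3 : Fin (n-1), j2 ≠ j0 ∧ j2 ≠ j1 ∧ j3 ≠ j0 ∧
      j3 ≠ j1 ∧ j2 ≠ j3 := by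
    have hcard : 1 < ((Finset.univ : Finset (Fin (n-1))) \ {j0, j1}).card := by
      have := Finset.le_card_sdiff {j0, j1} (Finset.univ : Finset (Fin (n-1)))
      have h7 : ({j0, j1} : Finset (Fin (n-1))).card ≤ 2 := Finset.card_le_two
      rw [Finset.card_univ, Fintype.card_fin] at this
      omega
    obtain ⟨j2, hj2, j3, hj3, hne⟩ := Finset.one_lt_card.1 hcard
    simp only [Finset.mem_sdiff, Finset.mem_univ, Finset.mem_insert, Finset.mem_singleton,
      true_and, not_or] at hj2 hj3
    exact ⟨j2, j3, hj2.1, hj2.2, hj3.1, hj3.2, hne⟩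
  have hβM : ∀ j, β j ∈ M := by
    intro j
    have hbM : Equi k y M (b j) := by
      intro σ hσ π hπ i
      exact hbE j σ (fun c hc => hσ c (hM hc)) π hπ i
    exact (equi_sum x y hx hy M hM P (b j) P hP hbM hP).1
  have hw : ∀ j, Equi k y M ((1 : K) • b j + (-(β j / β j0)) • b j0) := fun j =>
    equi_lin y _ M hM (b j) (b j0) (hbE j) (hbE j0) 1 (-(β j / β j0)) (one_mem M)
      (neg_mem (div_mem (hβM j) (hβM j0)))
  have hws : ∀ j, ∑ i, ((1 : K) • b j + (-(β j / β j0)) • b j0) i = 0 := by
    intro j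
    simp only [Pi.add_apply, Pi.smul_apply, smul_eq_mul, one_mul, Finset.sum_add_distrib,
      ← Finset.mul_sum, hbs, mul_zero, add_zero]
  have hwP : ∀ j, ∑ i, P i * ((1 : K) • b j + (-(β j / β j0)) • b j0) i = 0 := by
    intro j
    have h8 : ∑ i, P i * ((1 : K) • b j + (-(β j / β j0)) • b j0) i =
        β j + (-(β j / β j0)) * β j0 := by
      simp only [hβ, Pi.add_apply, Pi.smul_apply, smul_eq_mul, one_mul, mul_add,
        Finset.sum_add_distrib, Finset.mul_sum]
      congr 1
      refine Finset.sum_congr rfl fun i _ => by ring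
    rw [h8, neg_mul, div_mul_cancel₀ _ hj0, add_neg_cancel]
  refine ⟨_, _, hw j2, hw j3, hws j2, hws j3, hwP j2, hwP j3, ?_⟩
  rw [Fintype.linearIndependent_iff]
  intro g hg
  simp only [Fin.sum_univ_three, Matrix.cons_val_zero, Matrix.cons_val_one,
    Matrix.cons_val] at hg
  have hb0 := Fintype.linearIndependent_iff.1 hbl
    (fun j => g 0 * a j + g 1 * ((if j = j2 then 1 else 0) + (-(β j2 / β j0)) *
      (if j = j0 then 1 else 0)) + g 2 * ((if j = j3 then 1 else 0) + (-(β j3 / β j0)) *
      (if j = j0 then 1 else 0))) (by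
      rw [← hg, ← ha]
      simp only [add_smul, mul_smul, Finset.sum_add_distrib, ← Finset.smul_sum, ite_smul, one_smul,
        zero_smul, Finset.sum_ite_eq', Finset.mem_univ, if_true])
  have e1 := hb0 j1
  have e2 := hb0 j2
  have e3 := hb0 j3
  simp only [if_neg h21.symm, if_neg h31.symm, if_neg hj1, mul_zero, add_zero] at e1
  have g0 : g 0 = 0 := by
    rcases mul_eq_zero.1 e1 with h | h
    · exact h
    · exact absurd h haj1
  simp only [g0, zero_mul, if_true, if_neg h20, if_neg h23, mul_zero, add_zero, zero_add,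
    mul_one] at e2
  simp only [g0, zero_mul, if_true, if_neg h30, if_neg h23.symm, mul_zero, add_zero, zero_add,
    mul_one] at e3
  intro i
  fin_cases i
  · exact g0
  · exact e2
  · exact e3

end Pool.Agent.Helper273.Sup
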