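import Pool.Agent.Helper273.Brg.Defs
import Pool.Agent.Helper273.Brg.P_iso_comb
import Pool.Agent.Helper273.Brg.P_equi_sum
import Pool.Agent.Helper273.Brg.P_equi_lin
import Pool.Agent.Helper273.Brg.P_second_pts



namespace Pool.Agent.Helper273.Sup
open IntermediateField


theorem line_pair {k K : Type*} [Field k] [Field K] [Algebra k K] [CharZero k] [IsAlgClosed K]
    {n : ℕ} (hn : 5 ≤ n) (x y : Fin n → K) (hx : Gen k x) (hy : IsRoots x y)
    (M : IntermediateField k K) (hM : adjoin k (Set.range x) ≤ M) (P : Fin n → K) (hP0 : P ≠ 0)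
    (hP : Equi k y M P) (h1 : ∑ i, P i = 0) (h2 : ∑ i, P i ^ 2 = 0) :
    ∃ (s : K) (P' : Fin n → K), s ^ 2 ∈ M ∧ Equi k y (adjoin k ((M : Set K) ∪ {s})) P' ∧
      ∑ i, P' i = 0 ∧ ∑ i, P' i ^ 2 = 0 ∧ ∑ i, P i * P' i = 0 ∧
      LinearIndependent K ![P, P'] := by
  obtain ⟨w, w', hw, hw', hws, hws', hPw, hPw', hli⟩ := second_pts hn x y hx hy M hM P hP0 hP h1 h2
  have hA := (equi_sum x y hx hy M hM w w w hw hw hw).1
  have hB := (equi_sum x y hx hy M hM w w' w hw hw' hw).1
  have hC := (equi_sum x y hx hy M hM w' w' w hw' hw' hw).1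
  obtain ⟨s, a, b, hs, ha, hb, hab, heq⟩ := iso_comb M _ _ _ hA hB hC
  have hMle : M ≤ adjoin k ((M : Set K) ∪ {s}) := fun z hz =>
    subset_adjoin k _ (Or.inl hz)
  refine ⟨s, a • w + b • w', hs, equi_lin y M _ hMle w w' hw hw' a b ha hb, ?_, ?_, ?_, ?_⟩
  · simp only [Pi.add_apply, Pi.smul_apply, smul_eq_mul]
    rw [Finset.sum_add_distrib, ← Finset.mul_sum, ← Finset.mul_sum, hws, hws']
    ring
  · rw [← heq]
    simp only [Pi.add_apply, Pi.smul_apply, smul_eq_mul]
    rw [Finset.mul_sum, Finset.mul_sum, Finset.mul_sum, ← Finset.sum_add_distrib,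
      ← Finset.sum_add_distrib]
    apply Finset.sum_congr rfl
    intro i _
    ring
  · have h3 : ∑ i, P i * (a • w + b • w') i = a * ∑ i, P i * w i + b * ∑ i, P i * w' i := by
      rw [Finset.mul_sum, Finset.mul_sum, ← Finset.sum_add_distrib]
      apply Finset.sum_congr rfl
      intro i _
      simp only [Pi.add_apply, Pi.smul_apply, smul_eq_mul]
      ring
    rw [h3, hPw, hPw']
    ring
  · rw [LinearIndependent.pair_iff]
    intro c t hct
    rw [Fintype.linearIndependent_iff] at hli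
    have h4 := hli ![c, t * a, t * b] (by
      rw [Fin.sum_univ_three]
      simp only [Matrix.cons_val_zero, Matrix.cons_val_one, Matrix.cons_val]
      rw [← hct, smul_add, smul_smul, smul_smul, add_assoc])
    have e0 := h4 0
    have e1 := h4 1
    have e2 := h4 2
    simp only [Matrix.cons_val_zero, Matrix.cons_val_one, Matrix.cons_val] at e0 e1 e2
    refine ⟨e0, ?_⟩
    rcases hab with hab | hab
    · exact (mul_eq_zero.mp e1).resolve_right hab
    · exact (mul_eq_zero.mp e2).resolve_right hab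

end Pool.Agent.Helper273.Sup
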