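import Pool.Agent.Helper273.Brg.Defs



namespace Pool.Agent.Helper273.Sup
open IntermediateField


theorem quad_ext {k K : Type*} [Field k] [Field K] [Algebra k K] (M : IntermediateField k K)
    (s : K) (hs : s ^ 2 ∈ M) : ∀ t ∈ adjoin k ((M : Set K) ∪ {s}),
      ∃ t0 ∈ M, ∃ d : K, d ^ 2 ∈ M ∧ t = t0 + d := by
  intro t ht
  by_cases hsM : s ∈ M
  · refine ⟨t, ?_, 0, by simp, by simp⟩
    have hle : adjoin k ((M : Set K) ∪ {s}) ≤ M := by
      rw [adjoin_le_iff]
      intro x hx
      rcases hx with hx | hx
      · exact hx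
      · rw [Set.mem_singleton_iff] at hx
        rw [hx]; exact hsM
    exact hle ht
  · have key : ∃ a ∈ M, ∃ b ∈ M, t = a + b * s := by
      induction ht using adjoin_induction with
      | mem x hx =>
        rcases hx with hx | hx
        · exact ⟨x, hx, 0, M.zero_mem, by ring⟩
        · rw [Set.mem_singleton_iff] at hx
          exact ⟨0, M.zero_mem, 1, M.one_mem, by rw [hx]; ring⟩
      | algebraMap x => exact ⟨algebraMap k K x, M.algebraMap_mem x, 0, M.zero_mem, by ring⟩
      | add x y _ _ hx hy =>
        obtain ⟨a, ha, b, hb, rfl⟩ := hx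
        obtain ⟨c, hc, d, hd, rfl⟩ := hy
        exact ⟨a + c, M.add_mem ha hc, b + d, M.add_mem hb hd, by ring⟩
      | inv x _ hx =>
        obtain ⟨a, ha, b, hb, rfl⟩ := hx
        have hNM : a * a - b * b * s ^ 2 ∈ M :=
          M.sub_mem (M.mul_mem ha ha) (M.mul_mem (M.mul_mem hb hb) hs)
        by_cases h0 : a + b * s = 0
        · exact ⟨0, M.zero_mem, 0, M.zero_mem, by rw [h0]; simp⟩
        · have hN : a * a - b * b * s ^ 2 ≠ 0 := by
            intro hN
            have h1 : (a + b * s) * (a - b * s) = 0 := by rw [← hN]; ring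
            rcases mul_eq_zero.mp h1 with h2 | h2
            · exact h0 h2
            · by_cases hb0 : b = 0
              · apply h0
                rw [hb0] at h2 ⊢
                simpa using h2
              · apply hsM
                have : s = a / b := by
                  rw [eq_div_iff hb0, mul_comm]
                  exact (sub_eq_zero.mp h2).symm
                rw [this]
                exact M.div_mem ha hb
          refine ⟨a / (a * a - b * b * s ^ 2), M.div_mem ha hNM,
            -b / (a * a - b * b * s ^ 2), M.div_mem (M.neg_mem hb) hNM, ?_⟩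
          have e : a / (a * a - b * b * s ^ 2) + -b / (a * a - b * b * s ^ 2) * s =
              (a - b * s) / (a * a - b * b * s ^ 2) := by ring
          rw [e, eq_div_iff hN, inv_mul_eq_iff_eq_mul₀ h0]
          ring
      | mul x y _ _ hx hy =>
        obtain ⟨a, ha, b, hb, rfl⟩ := hx
        obtain ⟨c, hc, d, hd, rfl⟩ := hy
        exact ⟨a * c + b * d * s ^ 2,
          M.add_mem (M.mul_mem ha hc) (M.mul_mem (M.mul_mem hb hd) hs),
          a * d + b * c, M.add_mem (M.mul_mem ha hd) (M.mul_mem hb hc), by ring⟩
    obtain ⟨a, ha, b, hb, rfl⟩ := key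
    exact ⟨a, ha, b * s, by rw [mul_pow]; exact M.mul_mem (pow_mem hb 2) hs, rfl⟩

end Pool.Agent.Helper273.Sup
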