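import Pool.Agent.Helper273.Brg.Defs



namespace Pool.Agent.Helper273.Sup
open IntermediateField


theorem step_split_gen {k K : Type*} [Field k] [Field K] [Algebra k K] (r : ℕ)
    (M E : IntermediateField k K)
    (h : ∀ t ∈ E, ∃ t0 ∈ M, ∃ d : K, d ^ 2 ∈ M ∧ t = t0 + d) : step r E ≤ step (2 * r) M := by
  unfold step
  rw [adjoin_le_iff]
  rintro a ⟨t, ht, ha⟩
  choose t0 h0 d hd htd using fun i => h (t i) (ht i)
  apply subset_adjoin
  let t' : Fin (2 * r) → K := fun j =>
    if hj : (j : ℕ) < r then t0 ⟨j, hj⟩ else d ⟨j - r, by have := j.2; omega⟩ ^ 2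
  have ht'1 : ∀ i : Fin r, t' ⟨i, by have := i.2; omega⟩ = t0 i := fun i => by
    simp [t', i.2]
  have ht'2 : ∀ i : Fin r, t' ⟨i + r, by have := i.2; omega⟩ = d i ^ 2 := fun i => by
    have h1 : ¬ ((i : ℕ) + r < r) := by omega
    simp [t']
  refine ⟨t', ?_, ?_⟩
  · intro j
    by_cases hj : (j : ℕ) < r
    · simp only [t', dif_pos hj]
      exact h0 _
    · simp only [t', dif_neg hj]
      exact hd _
  · set L := adjoin k (Set.range t') with hL
    have ht0L : ∀ i, t0 i ∈ L := fun i => subset_adjoin _ _ ⟨_, ht'1 i⟩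
    have hdL : ∀ i, d i ^ 2 ∈ L := fun i => subset_adjoin _ _ ⟨_, ht'2 i⟩
    have e3 : ∀ i, IsAlgebraic L (t i) := by
      intro i
      have e1 : IsAlgebraic L (t0 i) := isAlgebraic_algebraMap (⟨t0 i, ht0L i⟩ : L)
      have e2 : IsAlgebraic L (d i) := by
        have : IsAlgebraic L (d i ^ 2) := isAlgebraic_algebraMap (⟨d i ^ 2, hdL i⟩ : L)
        exact this.of_pow (by norm_num)
      rw [htd i]; exact e1.add e2
    have hle : adjoin k (Set.range t) ≤ (algebraicClosure L K).restrictScalars k := by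
      rw [adjoin_le_iff]
      rintro _ ⟨i, rfl⟩
      show t i ∈ algebraicClosure L K
      exact mem_algebraicClosure_iff.mpr (e3 i)
    have ha2 : IsAlgebraic (algebraicClosure L K) a := by
      letI : Algebra (adjoin k (Set.range t)) (algebraicClosure L K) :=
        (IntermediateField.inclusion hle).toRingHom.toAlgebra
      haveI : IsScalarTower (adjoin k (Set.range t)) (algebraicClosure L K) K :=
        IsScalarTower.of_algebraMap_eq (fun x => rfl)
      exact ha.extendScalars (RingHom.injective _)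
    exact ha2.restrictScalars L

end Pool.Agent.Helper273.Sup
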