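import Pool.Agent.Helper273.Brg.Defs
import Pool.Agent.Helper273.Brg.P_quad_ext
import Pool.Agent.Helper273.Brg.P_step_split_gen
import Pool.Agent.Helper273.Brg.P_first_point
import Pool.Agent.Helper273.Brg.P_line_pair
import Pool.Agent.Helper273.Brg.P_cubic_point
import Pool.Agent.Helper273.Sup.P_step_mono



namespace Pool.Agent.Helper273.Sup
open IntermediateField


theorem equi_mono_35094 {k K : Type*} [Field k] [Field K] [Algebra k K] {n : ℕ} {y : Fin n → K}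
    {M M' : IntermediateField k K} (h : M ≤ M') {z : Fin n → K} (hz : Equi k y M z) :
    Equi k y M' z :=
  fun σ hσ π hπ => hz σ (fun b hb => hσ b (h hb)) π hπ

theorem le_adj_35094 {k K : Type*} [Field k] [Field K] [Algebra k K] (M : IntermediateField k K)
    (s : K) : M ≤ adjoin k ((M : Set K) ∪ {s}) :=
  fun _ hb => subset_adjoin k _ (Or.inl hb)

theorem zvec_big {k K : Type*} [Field k] [Field K] [Algebra k K] [CharZero k] [IsAlgClosed K]
    {n : ℕ} (hn : 8 ≤ n) (x y : Fin n → K) (hx : Gen k x) (hy : IsRoots x y) :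
    ∃ z : Fin n → K, z ≠ 0 ∧ Equi k y (step (n - 4) (adjoin k (Set.range x))) z ∧
      ∑ i, z i = 0 ∧ ∑ i, z i ^ 2 = 0 ∧ ∑ i, z i ^ 3 = 0 := by
  obtain ⟨s1, P, hs1, hP0, hPE, hP1, hP2⟩ := first_point (by omega) x y hx hy
  set B := adjoin k (Set.range x) with hB
  set E1 := adjoin k ((B : Set K) ∪ {s1}) with hE1
  have hBE1 : B ≤ E1 := le_adj_35094 B s1
  obtain ⟨s2, P', hs2, hPE', hP1', hP2', hPP', hlin⟩ :=
    line_pair (by omega) x y hx hy E1 hBE1 P hP0 hPE hP1 hP2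
  set E2 := adjoin k ((E1 : Set K) ∪ {s2}) with hE2
  have hE12 : E1 ≤ E2 := le_adj_35094 E1 s2
  obtain ⟨z, hz0, hzE, hz1, hz2, hz3⟩ := cubic_point x y hx hy E2 (hBE1.trans hE12) P P'
    (equi_mono_35094 hE12 hPE) hPE' hP1 hP1' hP2 hP2' hPP' hlin
  have h1 : step 1 E2 ≤ step (2 * 1) E1 := step_split_gen 1 E1 E2 (quad_ext E1 s2 hs2)
  have h2 : step (2 * 1) E1 ≤ step (2 * (2 * 1)) B := step_split_gen (2 * 1) B E1 (quad_ext B s1 hs1)
  have h3 : step (2 * (2 * 1)) B ≤ step (n - 4) B := step_mono _ _ (by omega) B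
  exact ⟨z, hz0, equi_mono_35094 ((h1.trans h2).trans h3) hzE, hz1, hz2, hz3⟩

end Pool.Agent.Helper273.Sup
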