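import Pool.Agent.Helper273.Brg.Defs



namespace Pool.Agent.Helper273.Sup
open IntermediateField


theorem alpha_stab {k K : Type*} [Field k] [Field K] [Algebra k K] [CharZero k]
    (y : Fin 7 → K) (hy : AlgebraicIndependent k y) (π ρ : Equiv.Perm (Fin 7)) :
    y (π 4) + y (π 5) + 2 * y (π 6) = y (ρ 4) + y (ρ 5) + 2 * y (ρ 6) ↔
      π 6 = ρ 6 ∧ ((π 4 = ρ 4 ∧ π 5 = ρ 5) ∨ (π 4 = ρ 5 ∧ π 5 = ρ 4)) := by
  constructor
  · intro h
    have hli := Fintype.linearIndependent_iff.1 hy.linearIndependent
    have hg := hli (fun i => (if i = π 4 then (1 : k) else 0) + (if i = π 5 then 1 else 0) +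
      (if i = π 6 then 2 else 0) - (if i = ρ 4 then 1 else 0) - (if i = ρ 5 then 1 else 0) -
      (if i = ρ 6 then 2 else 0)) (by
        simp only [sub_smul, add_smul, ite_smul, one_smul, zero_smul, Finset.sum_sub_distrib,
          Finset.sum_add_distrib, Finset.sum_ite_eq', Finset.sum_ite_eq, Finset.mem_univ, if_true]
        have e1 : (2 : k) • y (π 6) = 2 * y (π 6) := by rw [Algebra.smul_def, map_ofNat]
        have e2 : (2 : k) • y (ρ 6) = 2 * y (ρ 6) := by rw [Algebra.smul_def, map_ofNat]
        rw [e1, e2, h]
        ring)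
    have n45 : π 4 ≠ π 5 := fun h => by simpa using π.injective h
    have n46 : π 4 ≠ π 6 := fun h => by simpa using π.injective h
    have n56 : π 5 ≠ π 6 := fun h => by simpa using π.injective h
    have m45 : ρ 4 ≠ ρ 5 := fun h => by simpa using ρ.injective h
    have m46 : ρ 4 ≠ ρ 6 := fun h => by simpa using ρ.injective h
    have m56 : ρ 5 ≠ ρ 6 := fun h => by simpa using ρ.injective h
    generalize π 4 = a at *
    generalize π 5 = b at *
    generalize π 6 = c at *
    generalize ρ 4 = a' at *
    generalize ρ 5 = b' at *
    generalize ρ 6 = c' at *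
    have h6 := hg c
    have h4 := hg a
    have h5 := hg b
    have hcc : c = c' := by
      by_contra hne
      simp only [n46.symm, n56.symm, hne, if_true, if_false] at h6
      by_cases u : c = a'
      · have u' : c ≠ b' := fun v => m45 (u.symm.trans v)
        simp only [u, m45, if_true, if_false] at h6
        norm_num at h6
      · by_cases v : c = b'
        · simp only [v, m45.symm, if_true, if_false] at h6
          norm_num at h6
        · simp only [u, v, if_false] at h6
          norm_num at h6
    subst hcc
    refine ⟨rfl, ?_⟩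
    simp only [n45, n46, if_true, if_false] at h4
    simp only [n45.symm, n56, if_true, if_false] at h5
    have ha : a = a' ∨ a = b' := by
      by_contra hne
      push Not at hne
      simp only [hne.1, hne.2, if_false] at h4
      norm_num at h4
    have hb : b = a' ∨ b = b' := by
      by_contra hne
      push Not at hne
      simp only [hne.1, hne.2, if_false] at h5
      norm_num at h5
    rcases ha with ha | ha <;> rcases hb with hb | hb
    · exact absurd (ha.trans hb.symm) n45
    · exact Or.inl ⟨ha, hb⟩
    · exact Or.inr ⟨ha, hb⟩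
    · exact absurd (ha.trans hb.symm) n45
  · rintro ⟨h6, (⟨h4, h5⟩ | ⟨h4, h5⟩)⟩
    · rw [h4, h5, h6]
    · rw [h4, h5, h6]; ring

end Pool.Agent.Helper273.Sup
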