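import Pool.Agent.Helper273.Brg.Defs
import Pool.Agent.Helper273.Brg.P_alpha_stab
import Pool.Agent.Helper273.Sup.P_fixed_mem
import Pool.Agent.Helper273.Sup.P_roots_indep
import Pool.Agent.Helper273.Sup.P_exists_perm_aut
import Pool.Agent.Helper273.Sup.P_exists_hom



namespace Pool.Agent.Helper273.Sup
open IntermediateField


theorem perm_ext3 (a b c : Fin 7) (hab : a ≠ b) (hca : c ≠ a) (hcb : c ≠ b) :
    ∃ π : Equiv.Perm (Fin 7), π 4 = a ∧ π 5 = b ∧ π 6 = c := by
  obtain ⟨s1, h1⟩ : ∃ s1 : Equiv.Perm (Fin 7), s1 4 = a := ⟨Equiv.swap 4 a, by simp⟩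
  obtain ⟨s2, h2, h2'⟩ : ∃ s2 : Equiv.Perm (Fin 7), s2 4 = a ∧ s2 5 = b := by
    refine ⟨s1 * Equiv.swap 5 (s1.symm b), ?_, ?_⟩
    · rw [Equiv.Perm.mul_apply, Equiv.swap_apply_of_ne_of_ne (by decide), h1]
      intro h
      rw [Equiv.eq_symm_apply, h1] at h
      exact hab h
    · rw [Equiv.Perm.mul_apply, Equiv.swap_apply_left, Equiv.apply_symm_apply]
  refine ⟨s2 * Equiv.swap 6 (s2.symm c), ?_, ?_, ?_⟩
  · rw [Equiv.Perm.mul_apply, Equiv.swap_apply_of_ne_of_ne (by decide), h2]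
    intro h
    rw [Equiv.eq_symm_apply, h2] at h
    exact hca h.symm
  · rw [Equiv.Perm.mul_apply, Equiv.swap_apply_of_ne_of_ne (by decide), h2']
    intro h
    rw [Equiv.eq_symm_apply, h2'] at h
    exact hcb h.symm
  · rw [Equiv.Perm.mul_apply, Equiv.swap_apply_left, Equiv.apply_symm_apply]

theorem alpha_odd {k K : Type*} [Field k] [Field K] [Algebra k K] [CharZero k] [IsAlgClosed K]
    (x y : Fin 7 → K) (hx : Gen k x) (hy : IsRoots x y) :
    Odd (minpoly (adjoin k (Set.range x)) (y 4 + y 5 + 2 * y 6)).natDegree := by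
  classical
  have hind := roots_indep x y hx hy
  obtain ⟨ρ, hρ⟩ := exists_hom x y hx hy
  have hex := fun π => exists_perm_aut x y hx hy π
  haveI halg := hx.alg
  generalize hF : adjoin k (Set.range x) = F at *
  haveI : CharZero F := charZero_of_injective_algebraMap (algebraMap k F).injective
  haveI : IsAlgClosure F K := ⟨inferInstance, halg⟩
  haveI : Normal F K := inferInstance
  obtain ⟨α, hα⟩ : ∃ α, α = y 4 + y 5 + 2 * y 6 := ⟨_, rfl⟩
  rw [← hα]
  have hint : IsIntegral F α := (Algebra.IsAlgebraic.isAlgebraic α).isIntegral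
  let T : Finset (Fin 7 × Fin 7 × Fin 7) :=
    Finset.univ.filter (fun t => t.1 < t.2.1 ∧ t.2.2 ≠ t.1 ∧ t.2.2 ≠ t.2.1)
  have hT : T.card = 105 := by decide +kernel
  let v : Fin 7 × Fin 7 × Fin 7 → K := fun t => y t.1 + y t.2.1 + 2 * y t.2.2
  have hinj : Set.InjOn v T := by
    rintro ⟨a, b, c⟩ h1 ⟨a', b', c'⟩ h2 h3
    have h1' := (Finset.mem_filter.1 (Finset.mem_coe.1 h1)).2
    have h2' := (Finset.mem_filter.1 (Finset.mem_coe.1 h2)).2
    simp only at h1' h2'
    obtain ⟨π, p4, p5, p6⟩ := perm_ext3 a b c h1'.1.ne h1'.2.1 h1'.2.2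
    obtain ⟨τ, t4, t5, t6⟩ := perm_ext3 a' b' c' h2'.1.ne h2'.2.1 h2'.2.2
    have h4 : y (π 4) + y (π 5) + 2 * y (π 6) = y (τ 4) + y (τ 5) + 2 * y (τ 6) := by
      rw [p4, p5, p6, t4, t5, t6]; exact h3
    rw [alpha_stab y hind, p4, p5, p6, t4, t5, t6] at h4
    obtain ⟨hc, h5 | h5⟩ := h4
    · rw [hc, h5.1, h5.2]
    · exfalso
      have := h1'.1
      rw [h5.1, h5.2] at this
      exact absurd this (not_lt.2 h2'.1.le)
  have hroot : (minpoly F α).rootSet K = v '' T := by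
    ext β
    rw [Polynomial.mem_rootSet]
    constructor
    · rintro ⟨_, hβ⟩
      have h1 : IsConjRoot F α β := (isConjRoot_iff_aeval_eq_zero hint).2 hβ
      obtain ⟨σ, hσ⟩ := isConjRoot_iff_exists_algEquiv.1 h1.symm
      let σ' : K ≃ₐ[k] K := σ.restrictScalars k
      have hmem : σ' ∈ F.fixingSubgroup := by
        rw [IntermediateField.mem_fixingSubgroup_iff]
        intro z hz
        exact σ.commutes ⟨z, hz⟩
      have h2 : ∀ i, σ (y i) = y (ρ ⟨σ', hmem⟩ i) := fun i => hρ ⟨σ', hmem⟩ i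
      obtain ⟨π, hπ⟩ : ∃ π, π = ρ ⟨σ', hmem⟩ := ⟨_, rfl⟩
      rw [← hπ] at h2
      have h3 : β = y (π 4) + y (π 5) + 2 * y (π 6) := by
        rw [← hσ, hα, map_add, map_add, map_mul, map_ofNat, h2, h2, h2]
      have e1 : π 4 ≠ π 5 := fun h => by simpa using π.injective h
      have e2 : π 6 ≠ π 4 := fun h => by simpa using π.injective h
      have e3 : π 6 ≠ π 5 := fun h => by simpa using π.injective h
      rcases lt_or_gt_of_ne e1 with h | h
      · refine ⟨(π 4, π 5, π 6), ?_, h3.symm⟩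
        exact Finset.mem_coe.2 (Finset.mem_filter.2 ⟨Finset.mem_univ _, h, e2, e3⟩)
      · refine ⟨(π 5, π 4, π 6), ?_, ?_⟩
        · exact Finset.mem_coe.2 (Finset.mem_filter.2 ⟨Finset.mem_univ _, h, e3, e2⟩)
        · rw [h3]; show y (π 5) + y (π 4) + 2 * y (π 6) = _; ring
    · rintro ⟨⟨a, b, c⟩, h1, rfl⟩
      have h1' := (Finset.mem_filter.1 (Finset.mem_coe.1 h1)).2
      simp only at h1'
      obtain ⟨π, p4, p5, p6⟩ := perm_ext3 a b c h1'.1.ne h1'.2.1 h1'.2.2
      obtain ⟨σ, hσ, hσ2⟩ := hex π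
      refine ⟨minpoly.ne_zero hint, ?_⟩
      let σ' : K ≃ₐ[F] K := { σ with commutes' := fun b => hσ b.1 b.2 }
      have h2 : v (a, b, c) = σ' α := by
        show y a + y b + 2 * y c = σ α
        rw [hα, map_add, map_add, map_mul, map_ofNat, hσ2, hσ2, hσ2, p4, p5, p6]
      rw [h2, Polynomial.aeval_algHom_apply σ' α (minpoly F α), minpoly.aeval, map_zero]
  have hsep : (minpoly F α).Separable := (minpoly.irreducible hint).separable
  have hcard : (minpoly F α).natDegree = 105 := by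
    rw [← Polynomial.card_rootSet_eq_natDegree hsep (IsAlgClosed.splits _ : (Polynomial.map (algebraMap F K) (minpoly F α)).Splits)]
    rw [← Nat.card_eq_fintype_card, hroot, Nat.card_image_of_injOn hinj]
    rw [← hT]
    simp
  rw [hcard]
  decide

end Pool.Agent.Helper273.Sup
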