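import Pool.Agent.Helper273.Brg.Defs



namespace Pool.Agent.Helper273.Sup
open IntermediateField


open Polynomial in
theorem exists_odd_irr_factor {F : Type*} [Field F] (n : ℕ) :
    ∀ h : Polynomial F, h.natDegree = n → Odd n →
      ∃ p : Polynomial F, Irreducible p ∧ Odd p.natDegree ∧ p ∣ h := by
  induction n using Nat.strong_induction_on with
  | _ n ih =>
    intro h hn hodd
    have hpos : 0 < h.natDegree := by rw [hn]; exact hodd.pos
    obtain ⟨p1, hp1, h1, rfl⟩ := Polynomial.exists_irreducible_of_natDegree_pos hpos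
    have hne : p1 * h1 ≠ 0 := by
      intro h0
      rw [h0] at hpos
      simp at hpos
    have hp10 : p1 ≠ 0 := left_ne_zero_of_mul hne
    have hh10 : h1 ≠ 0 := right_ne_zero_of_mul hne
    have hdeg : p1.natDegree + h1.natDegree = n := by
      rw [← hn, Polynomial.natDegree_mul hp10 hh10]
    have hp1pos : 0 < p1.natDegree := hp1.natDegree_pos
    rcases Nat.even_or_odd p1.natDegree with he | ho
    · have hodd1 : Odd h1.natDegree := by
        by_contra hcon
        rw [Nat.not_odd_iff_even] at hcon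
        have := he.add hcon
        rw [hdeg] at this
        exact (Nat.not_odd_iff_even.mpr this) hodd
      obtain ⟨p, hp, hpo, hpd⟩ := ih h1.natDegree (by omega) h1 rfl hodd1
      exact ⟨p, hp, hpo, hpd.mul_left _⟩
    · exact ⟨p1, hp1, ho, dvd_mul_right _ _⟩

theorem q_coeff {F : Type*} [Field F] {m : ℕ} (Q : Matrix (Fin m) (Fin m) F)
    (v : Fin m → Polynomial F) (D : ℕ) (hD : ∀ i, (v i).natDegree ≤ D) :
    (∑ i, ∑ j, Polynomial.C (Q i j) * v i * v j).coeff (D + D) =
      ∑ i, ∑ j, Q i j * (v i).coeff D * (v j).coeff D := by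
  rw [Polynomial.finset_sum_coeff]
  refine Finset.sum_congr rfl fun i _ => ?_
  rw [Polynomial.finset_sum_coeff]
  refine Finset.sum_congr rfl fun j _ => ?_
  rw [Polynomial.coeff_mul_add_eq_of_natDegree_le
    ((Polynomial.natDegree_C_mul_le _ _).trans (hD i)) (hD j), Polynomial.coeff_C_mul]

theorem q_natDegree {F : Type*} [Field F] {m : ℕ} (Q : Matrix (Fin m) (Fin m) F)
    (v : Fin m → Polynomial F) (D : ℕ) (hD : ∀ i, (v i).natDegree ≤ D) :
    (∑ i, ∑ j, Polynomial.C (Q i j) * v i * v j).natDegree ≤ D + D := by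
  refine Polynomial.natDegree_sum_le_of_forall_le _ _ fun i _ => ?_
  refine Polynomial.natDegree_sum_le_of_forall_le _ _ fun j _ => ?_
  refine Polynomial.natDegree_mul_le.trans ?_
  have h1 := (Polynomial.natDegree_C_mul_le (Q i j) (v i)).trans (hD i)
  have h2 := hD j
  omega

theorem q_dvd_mod {F : Type*} [Field F] {m : ℕ} (Q : Matrix (Fin m) (Fin m) F)
    (p : Polynomial F) (v v' : Fin m → Polynomial F) (hvv : ∀ i, p ∣ v i - v' i)
    (h : p ∣ ∑ i, ∑ j, Polynomial.C (Q i j) * v i * v j) :
    p ∣ ∑ i, ∑ j, Polynomial.C (Q i j) * v' i * v' j := by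
  have h1 : p ∣ (∑ i, ∑ j, Polynomial.C (Q i j) * v i * v j) -
      ∑ i, ∑ j, Polynomial.C (Q i j) * v' i * v' j := by
    rw [← Finset.sum_sub_distrib]
    refine Finset.dvd_sum fun i _ => ?_
    rw [← Finset.sum_sub_distrib]
    refine Finset.dvd_sum fun j _ => ?_
    have h2 : Polynomial.C (Q i j) * v i * v j - Polynomial.C (Q i j) * v' i * v' j =
        Polynomial.C (Q i j) * v i * (v j - v' j) + (v i - v' i) * (Polynomial.C (Q i j) * v' j) := by
      ring
    rw [h2]
    exact dvd_add (Dvd.dvd.mul_left (hvv j) _) (Dvd.dvd.mul_right (hvv i) _)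
  have h3 := dvd_sub h h1
  simpa using h3

theorem q_smul {F : Type*} [Field F] {m : ℕ} (Q : Matrix (Fin m) (Fin m) F)
    (g : Polynomial F) (u : Fin m → Polynomial F) :
    ∑ i, ∑ j, Polynomial.C (Q i j) * (g * u i) * (g * u j) =
      g * (g * ∑ i, ∑ j, Polynomial.C (Q i j) * u i * u j) := by
  rw [Finset.mul_sum, Finset.mul_sum]
  refine Finset.sum_congr rfl fun i _ => ?_
  rw [Finset.mul_sum, Finset.mul_sum]
  refine Finset.sum_congr rfl fun j _ => ?_
  ring

theorem springer_poly {F : Type*} [Field F] {m : ℕ} (Q : Matrix (Fin m) (Fin m) F)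
    (han : ∀ w : Fin m → F, ∑ i, ∑ j, Q i j * w i * w j = 0 → w = 0)
    (d : ℕ) (p : Polynomial F) (hp : Irreducible p) (hodd : Odd p.natDegree)
    (hd : p.natDegree = d) (v : Fin m → Polynomial F) (hv : ∃ i, ¬ p ∣ v i)
    (h : p ∣ ∑ i, ∑ j, Polynomial.C (Q i j) * v i * v j) : False := by
  classical
  induction d using Nat.strong_induction_on generalizing p v with
  | _ d ih =>
    have hp0 : p ≠ 0 := hp.ne_zero
    have hdpos : 0 < d := by rw [← hd]; exact hodd.pos
    -- minimal degree bound
    have hex : ∃ D : ℕ, ∃ v : Fin m → Polynomial F, (∃ i, v i ≠ 0) ∧ (∀ i, (v i).natDegree ≤ D) ∧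
        D < d ∧ p ∣ ∑ i, ∑ j, Polynomial.C (Q i j) * v i * v j := by
      refine ⟨d - 1, fun i => v i % p, ?_, ?_, by omega, ?_⟩
      · obtain ⟨i, hi⟩ := hv
        refine ⟨i, fun h0 => hi ?_⟩
        exact (EuclideanDomain.mod_eq_zero).mp h0
      · intro i
        have h1 := Polynomial.natDegree_mod_lt (v i) (q := p) (by omega)
        show (v i % p).natDegree ≤ d - 1
        omega
      · refine q_dvd_mod Q p v _ (fun i => ?_) h
        have h1 := EuclideanDomain.div_add_mod (v i) p
        refine ⟨v i / p, ?_⟩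
        show v i - v i % p = p * (v i / p)
        linear_combination -h1
    obtain ⟨D, ⟨u, ⟨i0, hi0⟩, huD, hDd, hpu⟩, hmin⟩ : ∃ D : ℕ, (∃ v : Fin m → Polynomial F,
        (∃ i, v i ≠ 0) ∧ (∀ i, (v i).natDegree ≤ D) ∧
        D < d ∧ p ∣ ∑ i, ∑ j, Polynomial.C (Q i j) * v i * v j) ∧
        ∀ D' < D, ¬ (∃ v : Fin m → Polynomial F, (∃ i, v i ≠ 0) ∧ (∀ i, (v i).natDegree ≤ D') ∧
        D' < d ∧ p ∣ ∑ i, ∑ j, Polynomial.C (Q i j) * v i * v j) :=
      ⟨Nat.find hex, Nat.find_spec hex, fun D' hD' => Nat.find_min hex hD'⟩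
    -- leading coefficients do not vanish
    have hw : (fun i => (u i).coeff D) ≠ 0 := by
      intro h0
      have h1 : ∀ i, (u i).coeff D = 0 := fun i => congrFun h0 i
      rcases Nat.eq_zero_or_pos D with hD0 | hDpos
      · apply hi0
        have h2 := huD i0
        rw [hD0] at h2
        have h3 := Polynomial.eq_C_of_natDegree_le_zero h2
        rw [h3]
        have h4 := h1 i0
        rw [hD0] at h4
        rw [h4, Polynomial.C_0]
      · refine hmin (D - 1) (by omega) ⟨u, ⟨i0, hi0⟩, fun i => ?_, by omega, hpu⟩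
        by_contra hcon
        have h2 : (u i).natDegree = D := by have := huD i; omega
        have h3 : (u i).leadingCoeff = 0 := by
          rw [Polynomial.leadingCoeff, h2]; exact h1 i
        rw [Polynomial.leadingCoeff_eq_zero] at h3
        rw [h3] at h2
        simp at h2
        omega
    have hcoef : (∑ i, ∑ j, Polynomial.C (Q i j) * u i * u j).coeff (D + D) ≠ 0 := by
      rw [q_coeff Q u D huD]
      intro h0
      exact hw (han _ h0)
    have hqne : (∑ i, ∑ j, Polynomial.C (Q i j) * u i * u j) ≠ 0 := by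
      intro h0
      rw [h0] at hcoef
      simp at hcoef
    have hqdeg : (∑ i, ∑ j, Polynomial.C (Q i j) * u i * u j).natDegree = D + D :=
      le_antisymm (q_natDegree Q u D huD) (Polynomial.le_natDegree_of_ne_zero hcoef)
    obtain ⟨g, hg⟩ := hpu
    have hg0 : g ≠ 0 := by
      rintro rfl
      rw [mul_zero] at hg
      exact hqne hg
    have hdeg : p.natDegree + g.natDegree = D + D := by
      rw [← hqdeg, hg, Polynomial.natDegree_mul hp0 hg0]
    have hgodd : Odd g.natDegree := by
      by_contra hcon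
      rw [Nat.not_odd_iff_even] at hcon
      have h1 := hodd.add_even hcon
      rw [hdeg] at h1
      exact (Nat.not_odd_iff_even.mpr ⟨D, rfl⟩) h1
    have hglt : g.natDegree < d := by omega
    obtain ⟨p', hp', hp'odd, hp'g⟩ := exists_odd_irr_factor g.natDegree g rfl hgodd
    have hp'deg : p'.natDegree ≤ g.natDegree := Polynomial.natDegree_le_of_dvd hp'g hg0
    have hp'pos : 0 < p'.natDegree := hp'odd.pos
    refine ih p'.natDegree (by omega) p' hp' hp'odd rfl u ?_ ?_
    · by_contra hcon
      push Not at hcon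
      choose t ht using hcon
      have hpt : p ∣ ∑ i, ∑ j, Polynomial.C (Q i j) * t i * t j := by
        have h1 : p ∣ p' * (p' * ∑ i, ∑ j, Polynomial.C (Q i j) * t i * t j) := by
          rw [← q_smul]
          refine ⟨g, ?_⟩
          rw [← hg]
          refine Finset.sum_congr rfl fun i _ => Finset.sum_congr rfl fun j _ => ?_
          rw [← ht i, ← ht j]
        have hndvd : ¬ p ∣ p' := by
          intro h2
          have h3 := Polynomial.natDegree_le_of_dvd h2 hp'.ne_zero
          omega
        have hprime := hp.prime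
        rcases hprime.dvd_or_dvd h1 with h2 | h2
        · exact absurd h2 hndvd
        · rcases hprime.dvd_or_dvd h2 with h3 | h3
          · exact absurd h3 hndvd
          · exact h3
      have hti0 : t i0 ≠ 0 := by
        intro h0
        apply hi0
        rw [ht i0, h0, mul_zero]
      have hDpos : 0 < D := by
        have h1 := huD i0
        rw [ht i0, Polynomial.natDegree_mul hp'.ne_zero hti0] at h1
        omega
      refine hmin (D - 1) (by omega) ⟨t, ⟨i0, hti0⟩, fun i => ?_, by omega, hpt⟩
      by_cases hti : t i = 0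
      · rw [hti]; simp
      · have h1 := huD i
        rw [ht i, Polynomial.natDegree_mul hp'.ne_zero hti] at h1
        omega
    · rw [hg]
      exact hp'g.mul_left _

end Pool.Agent.Helper273.Sup
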