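import Pool.Agent.Helper273.Brg.Defs
import Pool.Agent.Helper273.Brg.P_springer_poly



namespace Pool.Agent.Helper273.Sup
open IntermediateField


theorem springer {F K : Type*} [Field F] [Field K] [Algebra F K] {m : ℕ}
    (Q : Matrix (Fin m) (Fin m) F) (α : K) (hα : IsIntegral F α)
    (hodd : Odd (minpoly F α).natDegree) (P : Fin m → Polynomial F)
    (hne : ∃ i, Polynomial.aeval α (P i) ≠ 0)
    (hq : ∑ i, ∑ j, algebraMap F K (Q i j) * Polynomial.aeval α (P i) *
      Polynomial.aeval α (P j) = 0) :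
    ∃ w : Fin m → F, w ≠ 0 ∧ ∑ i, ∑ j, Q i j * w i * w j = 0 := by
  by_contra hcon
  push Not at hcon
  have han : ∀ w : Fin m → F, ∑ i, ∑ j, Q i j * w i * w j = 0 → w = 0 := by
    intro w hw
    by_contra hw0
    exact hcon w hw0 hw
  obtain ⟨i, hi⟩ := hne
  refine springer_poly Q han _ (minpoly F α) (minpoly.irreducible hα) hodd rfl P ⟨i, ?_⟩ ?_
  · rintro ⟨q, hq'⟩
    apply hi
    rw [hq', map_mul, minpoly.aeval, zero_mul]
  · apply minpoly.dvd
    rw [map_sum]
    rw [← hq]
    refine Finset.sum_congr rfl fun i _ => ?_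
    rw [map_sum]
    refine Finset.sum_congr rfl fun j _ => ?_
    rw [map_mul, map_mul, Polynomial.aeval_C]

end Pool.Agent.Helper273.Sup
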