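import Pool.Agent.Helper273.Brg.Defs
import Pool.Agent.Helper273.Brg.P_equi_sum
import Pool.Agent.Helper273.Brg.P_basis_trace
import Pool.Agent.Helper273.Brg.P_springer
import Pool.Agent.Helper273.Sup.P_galois_mem
import Pool.Agent.Helper273.Sup.P_exists_hom



namespace Pool.Agent.Helper273.Sup
open IntermediateField


theorem iso_descend {k K : Type*} [Field k] [Field K] [Algebra k K] [CharZero k] [IsAlgClosed K]
    {n : ℕ} (hn : 2 ≤ n) (x y : Fin n → K) (hx : Gen k x) (hy : IsRoots x y) (α : K)
    (hodd : Odd (minpoly (adjoin k (Set.range x)) α).natDegree) (z : Fin n → K) (hz0 : z ≠ 0)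
    (h1 : ∑ i, z i = 0) (h2 : ∑ i, z i ^ 2 = 0)
    (hz : ∀ σ : K ≃ₐ[k] K, (∀ b ∈ adjoin k (Set.range x), σ b = b) → σ α = α →
      ∀ π : Equiv.Perm (Fin n), (∀ i, σ (y i) = y (π i)) → ∀ i, σ (z i) = z (π i)) :
    ∃ e : Fin n → K, e ≠ 0 ∧ Equi k y (adjoin k (Set.range x)) e ∧ ∑ i, e i = 0 ∧
      ∑ i, e i ^ 2 = 0 := by
  classical
  obtain ⟨b, hbE, hb0, hbli⟩ := basis_trace hn x y hx hy
  -- z in the span
  let s : (Fin n → K) →ₗ[K] K := ∑ i, LinearMap.proj i
  have hs : ∀ v : Fin n → K, s v = ∑ i, v i := by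
    intro v
    simp [s, LinearMap.sum_apply]
  have hsurj : LinearMap.range s = ⊤ := by
    rw [LinearMap.range_eq_top]
    intro a
    refine ⟨fun i => if i = ⟨0, by omega⟩ then a else 0, ?_⟩
    rw [hs]
    simp
  have hker : Module.finrank K (LinearMap.ker s) = n - 1 := by
    have := LinearMap.finrank_range_add_finrank_ker s
    rw [hsurj, finrank_top, Module.finrank_self, Module.finrank_fin_fun] at this
    omega
  have hle : Submodule.span K (Set.range b) ≤ LinearMap.ker s := by
    rw [Submodule.span_le]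
    rintro _ ⟨j, rfl⟩
    rw [SetLike.mem_coe, LinearMap.mem_ker, hs]
    exact hb0 j
  have hspan : Submodule.span K (Set.range b) = LinearMap.ker s := by
    apply Submodule.eq_of_le_of_finrank_eq hle
    rw [finrank_span_eq_card hbli, hker, Fintype.card_fin]
  have hzmem : z ∈ Submodule.span K (Set.range b) := by
    rw [hspan, LinearMap.mem_ker, hs]
    exact h1
  obtain ⟨c, hc⟩ := (Submodule.mem_span_range_iff_exists_fun K).mp hzmem
  have hc' : ∀ i, z i = ∑ j, c j * b j i := by
    intro i
    rw [← hc]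
    simp [Finset.sum_apply]
  -- invariance of the coefficients
  have hfix : ∀ σ : K ≃ₐ[k] K, (∀ a ∈ adjoin k (Set.range x), σ a = a) → σ α = α →
      ∀ j, σ (c j) = c j := by
    intro σ hσ hσα
    obtain ⟨ρ, hρ⟩ := exists_hom x y hx hy
    have hmem : σ ∈ (adjoin k (Set.range x)).fixingSubgroup := by
      rw [IntermediateField.mem_fixingSubgroup_iff]
      exact hσ
    set π := ρ ⟨σ, hmem⟩ with hπ
    have hπy : ∀ i, σ (y i) = y (π i) := fun i => hρ ⟨σ, hmem⟩ i
    have e1 : ∀ i, z (π i) = ∑ j, σ (c j) * b j (π i) := by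
      intro i
      rw [← hz σ hσ hσα π hπy i, hc' i, map_sum]
      refine Finset.sum_congr rfl fun j _ => ?_
      rw [map_mul, hbE j σ hσ π hπy i]
    have e2 : ∑ j, σ (c j) • b j = ∑ j, c j • b j := by
      rw [hc]
      funext i
      obtain ⟨i', rfl⟩ := π.surjective i
      rw [e1 i', Finset.sum_apply]
      simp
    have e3 : ∑ j, (σ (c j) - c j) • b j = 0 := by
      simp only [sub_smul, Finset.sum_sub_distrib, e2, sub_self]
    intro j
    have := Fintype.linearIndependent_iff.mp hbli _ e3 j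
    exact sub_eq_zero.mp this
  have hαi : IsIntegral (adjoin k (Set.range x)) α := by
    haveI := hx.alg
    exact (Algebra.IsAlgebraic.isAlgebraic α).isIntegral
  have hpoly : ∀ j, ∃ P : Polynomial (adjoin k (Set.range x)), Polynomial.aeval α P = c j := by
    intro j
    have hmem := galois_mem (adjoin k (Set.range x)) hx.alg {α} (c j)
      (fun σ hσ hσα => hfix σ hσ (hσα α rfl) j)
    have hle2 : adjoin k (((adjoin k (Set.range x) : IntermediateField k K) : Set K) ∪ {α}) ≤
        (adjoin (adjoin k (Set.range x)) {α}).restrictScalars k := by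
      rw [adjoin_le_iff]
      rintro a (ha | ha)
      · exact (adjoin (adjoin k (Set.range x)) {α}).algebraMap_mem ⟨a, ha⟩
      · rw [Set.mem_singleton_iff.mp ha]
        exact mem_adjoin_simple_self _ α
    have hmem2 : c j ∈ (adjoin (adjoin k (Set.range x)) {α}).toSubalgebra := hle2 hmem
    rw [IntermediateField.adjoin_simple_toSubalgebra_of_isAlgebraic hαi.isAlgebraic,
      Algebra.adjoin_singleton_eq_range_aeval] at hmem2
    obtain ⟨P, hP⟩ := hmem2
    exact ⟨P, hP⟩
  choose P hP using hpoly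
  let Q : Matrix (Fin (n - 1)) (Fin (n - 1)) (adjoin k (Set.range x)) := fun i j =>
    ⟨∑ l, b i l * b j l,
      (equi_sum x y hx hy (adjoin k (Set.range x)) le_rfl (b i) (b j) (b j) (hbE i) (hbE j)
        (hbE j)).1⟩
  have hQ : ∀ i j, algebraMap (adjoin k (Set.range x)) K (Q i j) = ∑ l, b i l * b j l :=
    fun i j => rfl
  have hsq : ∀ d : Fin (n - 1) → K,
      ∑ i, ∑ j, (∑ l, b i l * b j l) * d i * d j = ∑ l, (∑ j, d j * b j l) ^ 2 := by
    intro d
    have : ∀ l, (∑ j, d j * b j l) ^ 2 = ∑ i, ∑ j, b i l * b j l * d i * d j := by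
      intro l
      rw [sq, Finset.sum_mul_sum]
      refine Finset.sum_congr rfl fun i _ => Finset.sum_congr rfl fun j _ => ?_
      ring
    simp only [this, Finset.sum_mul]
    symm
    rw [Finset.sum_comm]
    refine Finset.sum_congr rfl fun i _ => ?_
    exact Finset.sum_comm
  have hne : ∃ i, Polynomial.aeval α (P i) ≠ 0 := by
    by_contra hcon
    push Not at hcon
    apply hz0
    funext i
    rw [hc' i]
    apply Finset.sum_eq_zero
    intro j _
    rw [← hP j, hcon j, zero_mul]
  have hq : ∑ i, ∑ j, algebraMap (adjoin k (Set.range x)) K (Q i j) *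
      Polynomial.aeval α (P i) * Polynomial.aeval α (P j) = 0 := by
    simp only [hQ, hP]
    rw [hsq c]
    rw [← h2]
    refine Finset.sum_congr rfl fun l _ => ?_
    rw [hc' l]
  obtain ⟨w, hw0, hw⟩ := springer Q α hαi hodd P hne hq
  refine ⟨fun i => ∑ j, (w j : K) * b j i, ?_, ?_, ?_, ?_⟩
  · intro h0
    apply hw0
    have e3 : ∑ j, (w j : K) • b j = 0 := by
      funext i
      have := congrFun h0 i
      simpa [Finset.sum_apply] using this
    funext j
    have := Fintype.linearIndependent_iff.mp hbli _ e3 j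
    exact Subtype.ext this
  · intro σ hσ π hπ i
    simp only []
    rw [map_sum]
    refine Finset.sum_congr rfl fun j _ => ?_
    rw [map_mul, hbE j σ hσ π hπ i, hσ _ (w j).2]
  · rw [Finset.sum_comm]
    apply Finset.sum_eq_zero
    intro j _
    rw [← Finset.mul_sum, hb0 j, mul_zero]
  · rw [← hsq (fun j => (w j : K))]
    have := congrArg (algebraMap (adjoin k (Set.range x)) K) hw
    rw [map_zero] at this
    rw [← this, map_sum]
    refine Finset.sum_congr rfl fun i _ => ?_
    rw [map_sum]
    refine Finset.sum_congr rfl fun j _ => ?_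
    rw [map_mul, map_mul, hQ]
    rfl

end Pool.Agent.Helper273.Sup
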