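import Pool.Agent.Helper273.Brg.Defs
import Pool.Agent.Helper273.Brg.P_iso_descend
import Pool.Agent.Helper273.Brg.P_alpha_stab
import Pool.Agent.Helper273.Brg.P_alpha_odd
import Pool.Agent.Helper273.Sup.P_roots_indep



namespace Pool.Agent.Helper273.Sup
open IntermediateField


theorem iso_seven {k K : Type*} [Field k] [Field K] [Algebra k K] [IsAlgClosed k] [CharZero k]
    [IsAlgClosed K] (x y : Fin 7 → K) (hx : Gen k x) (hy : IsRoots x y) :
    ∃ e : Fin 7 → K, e ≠ 0 ∧ Equi k y (adjoin k (Set.range x)) e ∧ ∑ i, e i = 0 ∧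
      ∑ i, e i ^ 2 = 0 := by
  obtain ⟨s, hs⟩ := IsAlgClosed.exists_eq_mul_self (-56 : k)
  obtain ⟨c, hc⟩ : ∃ c : k, 10 * c ^ 2 + 8 * c + 3 = 0 := by
    refine ⟨(-8 + s) / 20, ?_⟩
    field_simp
    linear_combination (-(1 : k) * 10) * hs
  have hind := roots_indep x y hx hy
  set w : Fin 7 → k := ![c, c, c, c, 1, 1, -4 * c - 2] with hw
  have w4 : w 4 = 1 := rfl
  have w5 : w 5 = 1 := rfl
  have hwc : ∀ j : Fin 7, j ≠ 4 → j ≠ 5 → j ≠ 6 → w j = c := by
    intro j h4 h5 h6
    fin_cases j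
    · rfl
    · rfl
    · rfl
    · rfl
    · exact absurd rfl h4
    · exact absurd rfl h5
    · exact absurd rfl h6
  refine iso_descend (by norm_num) x y hx hy (y 4 + y 5 + 2 * y 6) (alpha_odd x y hx hy)
    (fun i => algebraMap k K (w i)) ?_ ?_ ?_ ?_
  · intro h
    have := congrFun h 4
    simp [w4] at this
  · rw [← map_sum]
    have : ∑ i, w i = 0 := by
      rw [hw, Fin.sum_univ_seven]
      simp
      ring
    rw [this, map_zero]
  · have : ∑ i, w i ^ 2 = 0 := by
      rw [hw, Fin.sum_univ_seven]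
      simp
      linear_combination 2 * hc
    calc ∑ i, (algebraMap k K (w i)) ^ 2 = algebraMap k K (∑ i, w i ^ 2) := by
          rw [map_sum]; simp
      _ = 0 := by rw [this, map_zero]
  · intro σ hσ hα π hπ i
    have h1 : σ (algebraMap k K (w i)) = algebraMap k K (w i) := σ.commutes _
    show σ (algebraMap k K (w i)) = algebraMap k K (w (π i))
    rw [h1]
    congr 1
    have e1 : y (π 4) + y (π 5) + 2 * y (π 6) =
        y ((1 : Equiv.Perm (Fin 7)) 4) + y ((1 : Equiv.Perm (Fin 7)) 5) +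
          2 * y ((1 : Equiv.Perm (Fin 7)) 6) := by
      rw [← hπ 4, ← hπ 5, ← hπ 6]
      simp only [Equiv.Perm.coe_one, id]
      rw [map_add, map_add, map_mul] at hα
      have : σ (2 : K) = 2 := map_ofNat σ 2
      rw [this] at hα
      exact hα
    have e2 := (alpha_stab y hind π 1).1 e1
    simp only [Equiv.Perm.coe_one, id] at e2
    obtain ⟨h6, h45⟩ := e2
    by_cases i4 : i = 4
    · subst i4
      rcases h45 with ⟨a, b⟩ | ⟨a, b⟩
      · rw [a]
      · rw [a, w4, w5]
    by_cases i5 : i = 5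
    · subst i5
      rcases h45 with ⟨a, b⟩ | ⟨a, b⟩
      · rw [b]
      · rw [b, w4, w5]
    by_cases i6 : i = 6
    · subst i6
      rw [h6]
    rw [hwc i i4 i5 i6]
    symm
    apply hwc
    · intro h
      rcases h45 with ⟨a, b⟩ | ⟨a, b⟩
      · exact i4 (π.injective (h.trans a.symm))
      · exact i5 (π.injective (h.trans b.symm))
    · intro h
      rcases h45 with ⟨a, b⟩ | ⟨a, b⟩
      · exact i5 (π.injective (h.trans b.symm))
      · exact i4 (π.injective (h.trans a.symm))
    · intro h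
      exact i6 (π.injective (h.trans h6.symm))

end Pool.Agent.Helper273.Sup
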