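import Pool.Agent.Helper273.Brg.Defs
import Pool.Agent.Helper273.Brg.P_quad_ext
import Pool.Agent.Helper273.Brg.P_step_split_gen
import Pool.Agent.Helper273.Brg.P_line_pair
import Pool.Agent.Helper273.Brg.P_cubic_point
import Pool.Agent.Helper273.Brg.P_iso_seven
import Pool.Agent.Helper273.Sup.P_step_mono



namespace Pool.Agent.Helper273.Sup
open IntermediateField


theorem zvec_seven {k K : Type*} [Field k] [Field K] [Algebra k K] [IsAlgClosed k] [CharZero k]
    [IsAlgClosed K] (x y : Fin 7 → K) (hx : Gen k x) (hy : IsRoots x y) :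
    ∃ z : Fin 7 → K, z ≠ 0 ∧ Equi k y (step 3 (adjoin k (Set.range x))) z ∧ ∑ i, z i = 0 ∧
      ∑ i, z i ^ 2 = 0 ∧ ∑ i, z i ^ 3 = 0 := by
  obtain ⟨e, he0, he, h1, h2⟩ := iso_seven x y hx hy
  set M := adjoin k (Set.range x) with hM
  obtain ⟨s, P', hs, hP', h1', h2', h3, hlin⟩ := line_pair (by norm_num) x y hx hy M le_rfl e he0 he h1 h2
  set E := adjoin k ((M : Set K) ∪ {s}) with hE
  have hME : M ≤ E := fun a ha => subset_adjoin k _ (Or.inl ha)
  have heE : Equi k y E e := fun σ hσ π hπ => he σ (fun b hb => hσ b (hME hb)) π hπ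
  obtain ⟨z, hz0, hz, hz1, hz2, hz3⟩ := cubic_point x y hx hy E hME e P' heE hP' h1 h1' h2 h2' h3 hlin
  have hst : step 1 E ≤ step 3 M :=
    (step_split_gen 1 M E (quad_ext M s hs)).trans (step_mono (2 * 1) 3 (by norm_num) M)
  exact ⟨z, hz0, fun σ hσ π hπ => hz σ (fun b hb => hσ b (hst hb)) π hπ, hz1, hz2, hz3⟩

end Pool.Agent.Helper273.Sup
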