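import Pool.Agent.Helper273.Six.Main2
import Pool.Agent.Helper273.Brg.P_zvec_seven
import Pool.Agent.Helper273.Brg.P_zvec_big
import Pool.Agent.Helper273.Brg.P_stage_three

namespace Pool.Agent.Helper273.Sup

open IntermediateField

theorem stage_three_all {k K : Type*} [Field k] [Field K] [Algebra k K] [IsAlgClosed k]
    [CharZero k] [IsAlgClosed K] {n : ℕ} (hn : 5 ≤ n) (x y : Fin n → K) (hx : Gen k x)
    (hy : IsRoots x y) (i : Fin n) :
    y i ∈ step (n - 4) (step (n - 4) (adjoin k (Set.range x))) := by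
  rcases Nat.lt_or_ge n 8 with h8 | h8
  · have h : n = 5 ∨ n = 6 ∨ n = 7 := by omega
    rcases h with rfl | rfl | rfl
    · exact quintic x y hx hy i
    · exact sextic x y hx hy i
    · exact stage_three (by norm_num) x y hx hy (zvec_seven x y hx hy) i
  · exact stage_three (by omega) x y hx hy (zvec_big h8 x y hx hy) i

theorem main_three (k : Type*) [Field k] [IsAlgClosed k] [CharZero k] (K : Type*) [Field K]
    [Algebra k K] [IsAlgClosed K] (n : ℕ) (hn : 5 ≤ n) (x : Fin n → K)
    (hx : AlgebraicIndependent k x) (hK : Algebra.IsAlgebraic (adjoin k (Set.range x)) K)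
    (f : K) (hf : f ^ n + ∑ i : Fin n, x i * f ^ (n - 1 - (i : ℕ)) = 0) (r : ℕ)
    (hr : n - 4 ≤ r) : f ∈ tower k x r 3 := by
  have hg : Gen k x := ⟨hx, hK⟩
  obtain ⟨y, hy⟩ := exists_roots x
  obtain ⟨i0, hi0⟩ := root_mem x y hy f hf
  have three : tower k x r 3 = step r (step r (adjoin k (Set.range x))) := rfl
  rw [three, hi0]
  exact step_mono _ _ hr _
    (step_le_step _ _ _ (step_mono _ _ hr _) (stage_three_all hn x y hg hy i0))

end Pool.Agent.Helper273.Sup
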